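import Pool.Agent.Lib_helper95.Lat.Final

/-!
Blocks R and H: `Pool.Agent.Lat.rec_of_action` and `Pool.Agent.Lat.harmonic_final`.
-/
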