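import Mathlib

/-!
# The resolution property of classifying stacks, in terms of comodules

Let `A` be a commutative Hopf algebra over a commutative ring `R` and `G = Spec A` the corresponding
affine group scheme. Quasi-coherent sheaves on the classifying stack `B_R G` are the same thing as
`A`-comodules; a quasi-coherent sheaf is of finite type (respectively locally free of finite rank)
iff the underlying `R`-module of the comodule is finitely generated (respectively finitely generated
and projective).
-/

open TensorProduct

namespace Pool.Agent.Lib_helper95.Resolution

universe u

/-- A representation on the `R`-module `M` of the affine group scheme `G = Spec A` over `R`, where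
`A` is a commutative Hopf algebra over `R`: a (right) `A`-comodule structure on `M`.
Equivalently, a quasi-coherent sheaf on the classifying stack `B_R G` whose pullback to `Spec R`
is `M`. -/
structure Comodule (R A M : Type u) [CommRing R] [CommRing A] [HopfAlgebra R A]
    [AddCommGroup M] [Module R M] where
  /-- the coaction -/
  coact : M →ₗ[R] M ⊗[R] A
  /-- counitality -/
  counit_coact : ∀ m, TensorProduct.rid R M ((Coalgebra.counit (R := R) (A := A)).lTensor M
    (coact m)) = m
  /-- coassociativity -/
  coassoc : ∀ m, TensorProduct.assoc R M A A (coact.rTensor A (coact m)) =
    (Coalgebra.comul (R := R) (A := A)).lTensor M (coact m)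

/-- The resolution property of the classifying stack `B_R G`, `G = Spec A`: every comodule which is
finitely generated over `R` is the image of an `A`-colinear surjection from a comodule which is
finitely generated and projective over `R`. -/
def ResolutionProperty (R A : Type u) [CommRing R] [CommRing A] [HopfAlgebra R A] : Prop :=
  ∀ (M : Type u) [AddCommGroup M] [Module R M] (c : Comodule R A M), Module.Finite R M →
    ∃ (V : Type u) (_ : AddCommGroup V) (_ : Module R V) (d : Comodule R A V) (f : V →ₗ[R] M),
      Module.Finite R V ∧ Module.Projective R V ∧ Function.Surjective f ∧
        ∀ v, c.coact (f v) = f.rTensor A (d.coact v)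

/-- The resolution property of `B_{R/I} G_{R/I}`, the closed substack of `B_R G`, `G = Spec A`, cut
out by the ideal `I` of `R`; here `G_{R/I} = Spec ((R/I) ⊗[R] A)` is the base change of `G`. -/
def ResolutionPropertyOn (R A : Type u) [CommRing R] [CommRing A] [HopfAlgebra R A]
    (I : Ideal R) : Prop :=
  ResolutionProperty (R ⧸ I) ((R ⧸ I) ⊗[R] A)

end Pool.Agent.Lib_helper95.Resolution
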