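import Pool.Agent.Lib_helper95.ResolutionDefs

set_option linter.unusedSimpArgs false
set_option linter.style.haveILetI false
set_option linter.unusedSectionVars false

open TensorProduct LaurentPolynomial

namespace Pool.Agent.Lib_helper95.Resolution

universe u

/-- underlying algebra of `Gm x Ga^2` over `R`. -/
def AA (R : Type u) [CommRing R] : Type u := MvPolynomial (Fin 2) R[T;T⁻¹]

noncomputable instance (R : Type u) [CommRing R] : CommRing (AA R) :=
  inferInstanceAs (CommRing (MvPolynomial (Fin 2) R[T;T⁻¹]))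

noncomputable instance (R : Type u) [CommRing R] : Algebra R (AA R) :=
  inferInstanceAs (Algebra R (MvPolynomial (Fin 2) R[T;T⁻¹]))

section points

variable {R : Type u} [CommRing R] {B : Type u} [CommRing B] [Algebra R B]

/-- auxiliary: the algebra map on the Laurent polynomials -/
noncomputable def ptL (t : Bˣ) : R[T;T⁻¹] →ₐ[R] B :=
  { LaurentPolynomial.eval₂ (algebraMap R B) t with
    commutes' := fun r => by simp [← LaurentPolynomial.C_eq_algebraMap] }

lemma ptL_T (t : Bˣ) (n : ℤ) : ptL (R := R) t (T n) = ((t ^ n : Bˣ) : B) :=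
  LaurentPolynomial.eval₂_T (algebraMap R B) t n

/-- auxiliary: the algebra map before the renaming -/
noncomputable def ptPre (t : Bˣ) (y : Fin 2 → B) : MvPolynomial (Fin 2) R[T;T⁻¹] →ₐ[R] B :=
  MvPolynomial.aevalTower (ptL t) y

lemma ptPre_C (t : Bˣ) (y : Fin 2 → B) (n : ℤ) :
    ptPre (R := R) t y (MvPolynomial.C (T n)) = ((t ^ n : Bˣ) : B) := by
  rw [ptPre, MvPolynomial.aevalTower_C, ptL_T]

lemma ptPre_X (t : Bˣ) (y : Fin 2 → B) (i : Fin 2) :
    ptPre (R := R) t y (MvPolynomial.X i) = y i := by
  rw [ptPre, MvPolynomial.aevalTower_X]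

/-- The point `(t; y)`, as an algebra map. -/
noncomputable def pt (t : Bˣ) (y : Fin 2 → B) : AA R →ₐ[R] B := ptPre t y

/-- the coordinate `T`. -/
noncomputable def tt : AA R :=
  (MvPolynomial.C (LaurentPolynomial.T 1) : MvPolynomial (Fin 2) R[T;T⁻¹])

/-- the inverse of coordinate `T`. -/
noncomputable def tt' : AA R :=
  (MvPolynomial.C (LaurentPolynomial.T (-1)) : MvPolynomial (Fin 2) R[T;T⁻¹])

/-- the coordinates `x`. -/
noncomputable def xx (i : Fin 2) : AA R := (MvPolynomial.X i : MvPolynomial (Fin 2) R[T;T⁻¹])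

lemma tt_mul_tt' : (tt : AA R) * tt' = 1 := by
  have : (MvPolynomial.C (LaurentPolynomial.T 1) : MvPolynomial (Fin 2) R[T;T⁻¹]) *
      MvPolynomial.C (LaurentPolynomial.T (-1)) = 1 := by
    rw [← map_mul, ← LaurentPolynomial.T_add]
    simp
  exact this

lemma tt'_mul_tt : (tt' : AA R) * tt = 1 := by
  rw [mul_comm, tt_mul_tt']

@[simp] lemma pt_tt (t : Bˣ) (y : Fin 2 → B) : pt (R := R) t y tt = t := by
  have h := ptPre_C (R := R) t y 1
  rw [zpow_one] at h
  exact h

@[simp] lemma pt_tt' (t : Bˣ) (y : Fin 2 → B) : pt (R := R) t y tt' = (t⁻¹ : Bˣ) := by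
  have h := ptPre_C (R := R) t y (-1)
  rw [zpow_neg_one] at h
  exact h

@[simp] lemma pt_xx (t : Bˣ) (y : Fin 2 → B) (i : Fin 2) : pt (R := R) t y (xx i) = y i :=
  ptPre_X t y i

lemma laurent_ext {f g : R[T;T⁻¹] →ₐ[R] B} (h : f (T 1) = g (T 1)) : f = g :=
  AddMonoidAlgebra.algHom_ext' (MonoidHom.ext_mint h) (by ext)

lemma hom_ext {f g : AA R →ₐ[R] B} (h1 : f tt = g tt) (h2 : ∀ i, f (xx i) = g (xx i)) : f = g := by
  refine MvPolynomial.algHom_ext' ?_ h2
  exact laurent_ext h1

end points

section hopf

variable {R : Type u} [CommRing R] (e : R)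

lemma one_add_mul_one_sub {B : Type u} [CommRing B] [Algebra R B] (he : e * e = 0) (b : B) :
    (1 + e • b) * (1 - e • b) = 1 := by
  have : e • b * e • b = 0 := by rw [smul_mul_smul_comm, he, zero_smul]
  linear_combination -this

/-- The unit `(T ⊗ T) (1 + e x₀ ⊗ x₁)`. -/
noncomputable def comulUnit (he : e * e = 0) : (AA R ⊗[R] AA R)ˣ where
  val := (tt ⊗ₜ tt) * (1 + e • (xx 0 ⊗ₜ xx 1))
  inv := (tt' ⊗ₜ tt') * (1 - e • (xx 0 ⊗ₜ xx 1))
  val_inv := by
    have h1 : (tt ⊗ₜ[R] tt : AA R ⊗[R] AA R) * (tt' ⊗ₜ tt') = 1 := by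
      rw [Algebra.TensorProduct.tmul_mul_tmul, tt_mul_tt', Algebra.TensorProduct.one_def]
    rw [mul_mul_mul_comm, h1, one_add_mul_one_sub e he, one_mul]
  inv_val := by
    have h1 : (tt' ⊗ₜ[R] tt' : AA R ⊗[R] AA R) * (tt ⊗ₜ tt) = 1 := by
      rw [Algebra.TensorProduct.tmul_mul_tmul, tt'_mul_tt, Algebra.TensorProduct.one_def]
    rw [mul_mul_mul_comm, h1, mul_comm (1 - _) (1 + _), one_add_mul_one_sub e he, one_mul]

/-- comultiplication -/
noncomputable def comulHom (he : e * e = 0) : AA R →ₐ[R] AA R ⊗[R] AA R :=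
  pt (comulUnit e he) (fun i => xx i ⊗ₜ 1 + 1 ⊗ₜ xx i)

/-- counit -/
noncomputable def counitHom : AA R →ₐ[R] R := pt 1 (fun _ => 0)

/-- The unit `T⁻¹ (1 + e x₀ x₁)`. -/
noncomputable def antiUnit (he : e * e = 0) : (AA R)ˣ where
  val := tt' * (1 + e • (xx 0 * xx 1))
  inv := tt * (1 - e • (xx 0 * xx 1))
  val_inv := by
    rw [mul_mul_mul_comm, tt'_mul_tt, one_add_mul_one_sub e he, one_mul]
  inv_val := by
    rw [mul_mul_mul_comm, tt_mul_tt', mul_comm (1 - _) (1 + _), one_add_mul_one_sub e he, one_mul]

/-- antipode -/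
noncomputable def antiHom (he : e * e = 0) : AA R →ₐ[R] AA R :=
  pt (antiUnit e he) (fun i => - xx i)

lemma comulHom_tt (he : e * e = 0) :
    comulHom e he tt = (tt ⊗ₜ tt) * (1 + e • (xx 0 ⊗ₜ xx 1)) := by
  unfold comulHom
  rw [pt_tt]
  rfl

lemma comulHom_xx (he : e * e = 0) (i : Fin 2) :
    comulHom e he (xx i) = xx i ⊗ₜ 1 + 1 ⊗ₜ xx i := by
  unfold comulHom
  rw [pt_xx]

lemma antiHom_tt (he : e * e = 0) :
    antiHom e he tt = tt' * (1 + e • (xx 0 * xx 1)) := by
  unfold antiHom
  rw [pt_tt]
  rfl

lemma antiHom_xx (he : e * e = 0) (i : Fin 2) : antiHom e he (xx i) = - xx i := by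
  unfold antiHom
  rw [pt_xx]

@[simp] lemma counitHom_tt : counitHom (R := R) tt = 1 := by
  unfold counitHom
  rw [pt_tt]
  rfl

@[simp] lemma counitHom_xx (i : Fin 2) : counitHom (R := R) (xx i) = 0 := by
  unfold counitHom
  rw [pt_xx]

/-- The bialgebra structure. -/
@[reducible] noncomputable def bialg (he : e * e = 0) : Bialgebra R (AA R) :=
  Bialgebra.ofAlgHom (comulHom e he) counitHom
    (by
      refine hom_ext ?_ ?_
      · simp only [AlgHom.comp_apply, comulHom_tt, map_mul, map_add, map_one, map_smul,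
          Algebra.TensorProduct.map_tmul, comulHom_xx,
          TensorProduct.add_tmul, TensorProduct.tmul_add, AlgHom.coe_id, id_eq,
          mul_add, add_mul, mul_one, smul_add, ← TensorProduct.smul_tmul',
          TensorProduct.tmul_smul,
          mul_smul_comm, smul_mul_assoc, smul_smul, he, zero_smul, add_zero, zero_add,
          Algebra.TensorProduct.tmul_mul_tmul, Algebra.TensorProduct.assoc_tmul,
          AlgEquiv.coe_toAlgHom]
        abel
      · intro i
        simp only [AlgHom.comp_apply, comulHom_xx, map_add, Algebra.TensorProduct.map_tmul, map_one,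
          TensorProduct.add_tmul, TensorProduct.tmul_add, AlgHom.coe_id, id_eq,
          AlgEquiv.coe_toAlgHom, Algebra.TensorProduct.assoc_tmul,
          Algebra.TensorProduct.one_def]
        abel)
    (by
      refine hom_ext ?_ ?_
      · simp [AlgHom.comp_apply, comulHom_tt, map_mul, map_add, map_one, map_smul,
          Algebra.TensorProduct.map_tmul]
      · intro i
        simp [AlgHom.comp_apply, comulHom_xx, map_add, Algebra.TensorProduct.map_tmul, map_one])
    (by
      refine hom_ext ?_ ?_
      · simp [AlgHom.comp_apply, comulHom_tt, map_mul, map_add, map_one, map_smul,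
          Algebra.TensorProduct.map_tmul]
      · intro i
        simp [AlgHom.comp_apply, comulHom_xx, map_add, Algebra.TensorProduct.map_tmul, map_one])

/-- The Hopf algebra structure. -/
@[reducible] noncomputable def hopf (he : e * e = 0) : HopfAlgebra R (AA R) :=
  letI := bialg e he
  have hc : Bialgebra.comulAlgHom R (AA R) = comulHom e he := rfl
  have hu : Bialgebra.counitAlgHom R (AA R) = counitHom := rfl
  HopfAlgebra.ofAlgHom (antiHom e he)
    (by
      rw [hc, hu]
      have hl : ∀ a b : AA R, (Algebra.TensorProduct.lift (antiHom e he) (AlgHom.id R (AA R))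
          (fun _ => Commute.all _)) (a ⊗ₜ[R] b) = antiHom e he a * b := fun a b =>
        Algebra.TensorProduct.lift_tmul _ _ _ _ _
      refine hom_ext ?_ ?_
      · have h1 : (1 + e • (xx 0 * xx 1) : AA R) * (1 - e • (xx 0 * xx 1)) = 1 :=
          one_add_mul_one_sub e he _
        have h2 : (tt' : AA R) * tt = 1 := tt'_mul_tt
        simp only [AlgHom.comp_apply, comulHom_tt, map_mul, map_add, map_one, map_smul,
          hl, antiHom_tt, antiHom_xx, counitHom_tt]
        rw [neg_mul, smul_neg]
        linear_combination h1 + (1 + e • (xx 0 * xx 1) : AA R) * (1 - e • (xx 0 * xx 1)) * h2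
      · intro i
        simp only [AlgHom.comp_apply, comulHom_xx, map_add, map_one, map_zero, counitHom_xx,
          hl, antiHom_xx]
        ring)
    (by
      rw [hc, hu]
      refine hom_ext ?_ ?_
      · have h1 : (1 + e • (xx 0 * xx 1) : AA R) * (1 - e • (xx 0 * xx 1)) = 1 :=
          one_add_mul_one_sub e he _
        have h2 : (tt : AA R) * tt' = 1 := tt_mul_tt'
        simp only [AlgHom.comp_apply, comulHom_tt, map_mul, map_add, map_one, map_smul,
          Algebra.TensorProduct.lift_tmul, antiHom_tt, antiHom_xx, counitHom_tt,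
          AlgHom.coe_id, id_eq]
        rw [mul_neg, smul_neg]
        linear_combination h1 + (1 + e • (xx 0 * xx 1) : AA R) * (1 - e • (xx 0 * xx 1)) * h2
      · intro i
        simp only [AlgHom.comp_apply, comulHom_xx, map_add, map_one, map_zero, counitHom_xx,
          Algebra.TensorProduct.lift_tmul, antiHom_xx, AlgHom.coe_id, id_eq]
        ring)

end hopf


lemma resolutionPropertyOn_of_isMaximal (R A : Type u) [CommRing R] [CommRing A] [HopfAlgebra R A]
    (I : Ideal R) (hI : I.IsMaximal) : ResolutionPropertyOn R A I := by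
  intro M _ _ c hM
  letI := Ideal.Quotient.field I
  refine ⟨M, inferInstance, inferInstance, c, LinearMap.id, hM, ?_, Function.surjective_id, ?_⟩
  · exact Module.Projective.of_free
  · intro v
    simp

section act

variable {R A V M : Type u} [CommRing R] [CommRing A] [HopfAlgebra R A]
  [AddCommGroup V] [Module R V] [AddCommGroup M] [Module R M]

/-- evaluation of the second factor -/
noncomputable def ev (V : Type u) [AddCommGroup V] [Module R V] {N : Type u} [AddCommGroup N]
    [Module R N] (φ : N →ₗ[R] R) : V ⊗[R] N →ₗ[R] V :=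
  (TensorProduct.rid R V).toLinearMap ∘ₗ φ.lTensor V

@[simp] lemma ev_tmul {N : Type u} [AddCommGroup N] [Module R N] (φ : N →ₗ[R] R) (v : V) (n : N) :
    ev V φ (v ⊗ₜ n) = φ n • v := by
  simp [ev]

/-- the action of a linear functional on a comodule -/
noncomputable def act (d : Comodule R A V) (φ : A →ₗ[R] R) : V →ₗ[R] V := ev V φ ∘ₗ d.coact

/-- convolution -/
noncomputable def conv (φ ψ : A →ₗ[R] R) : A →ₗ[R] R :=
  LinearMap.mul' R R ∘ₗ TensorProduct.map φ ψ ∘ₗ Coalgebra.comul

lemma act_counit (d : Comodule R A V) : act d (Coalgebra.counit (R := R) (A := A)) = 1 := by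
  ext v
  exact d.counit_coact v

lemma act_comp (d : Comodule R A V) (φ ψ : A →ₗ[R] R) :
    act d φ * act d ψ = act d (conv φ ψ) := by
  have h1 : ∀ z : V ⊗[R] A, ev V φ (d.coact (ev V ψ z)) =
      ev V ψ ((ev V φ).rTensor A (d.coact.rTensor A z)) := by
    intro z
    induction z with
    | zero => simp
    | tmul w b => simp
    | add x y hx hy => simp only [map_add, hx, hy]
  have h2 : ∀ z : V ⊗[R] (A ⊗[R] A), ev V ψ ((ev V φ).rTensor A
      ((TensorProduct.assoc R V A A).symm z)) =
      ev V (LinearMap.mul' R R ∘ₗ TensorProduct.map φ ψ) z := by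
    intro z
    induction z with
    | zero => simp
    | tmul w b =>
      induction b with
      | zero => simp
      | tmul a b => simp [smul_smul, mul_comm]
      | add x y hx hy => simp only [TensorProduct.tmul_add, map_add, hx, hy]
    | add x y hx hy => simp only [map_add, hx, hy]
  have h3 : ∀ z : V ⊗[R] A, ev V (LinearMap.mul' R R ∘ₗ TensorProduct.map φ ψ)
      ((Coalgebra.comul (R := R) (A := A)).lTensor V z) = ev V (conv φ ψ) z := by
    intro z
    induction z with
    | zero => simp
    | tmul w b => simp [conv]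
    | add x y hx hy => simp only [map_add, hx, hy]
  ext v
  change ev V φ (d.coact (ev V ψ (d.coact v))) = ev V (conv φ ψ) (d.coact v)
  rw [h1, ← h3, ← d.coassoc, ← h2, LinearEquiv.symm_apply_apply]

lemma act_map (c : Comodule R A M) (d : Comodule R A V) (f : V →ₗ[R] M)
    (hf : ∀ v, c.coact (f v) = f.rTensor A (d.coact v)) (φ : A →ₗ[R] R) (v : V) :
    act c φ (f v) = f (act d φ v) := by
  have h1 : ∀ z : V ⊗[R] A, ev M φ (f.rTensor A z) = f (ev V φ z) := by
    intro z
    induction z with
    | zero => simp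
    | tmul w b => simp
    | add x y hx hy => simp only [map_add, hx, hy]
  change ev M φ (c.coact (f v)) = f (ev V φ (d.coact v))
  rw [hf, h1]

end act

section homMul

variable {R A B : Type u} [CommRing R] [CommRing A] [HopfAlgebra R A] [CommRing B] [Algebra R B]

/-- the product of two `B`-points of `Spec A` -/
noncomputable def homMul (g h : A →ₐ[R] B) : A →ₐ[R] B :=
  (Algebra.TensorProduct.lift g h (fun _ _ => Commute.all _ _)).comp (Bialgebra.comulAlgHom R A)

lemma homMul_apply (g h : A →ₐ[R] B) (a : A) :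
    homMul g h a = Algebra.TensorProduct.lift g h (fun _ _ => Commute.all _ _)
      (Coalgebra.comul (R := R) a) := rfl

lemma conv_left (c : B →ₗ[R] R) (g : A →ₐ[R] B) (ψ : A →ₐ[R] R) :
    conv (c ∘ₗ g.toLinearMap) ψ.toLinearMap =
      c ∘ₗ (homMul g ((Algebra.ofId R B).comp ψ)).toLinearMap := by
  have h : ∀ z : A ⊗[R] A, LinearMap.mul' R R (TensorProduct.map (c ∘ₗ g.toLinearMap)
      ψ.toLinearMap z) = c (Algebra.TensorProduct.lift g ((Algebra.ofId R B).comp ψ)
        (fun _ _ => Commute.all _ _) z) := by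
    intro z
    induction z with
    | zero => simp
    | tmul a b =>
      simp only [TensorProduct.map_tmul, LinearMap.comp_apply, AlgHom.toLinearMap_apply,
        LinearMap.mul'_apply, Algebra.TensorProduct.lift_tmul, AlgHom.comp_apply,
        Algebra.ofId_apply]
      rw [← Algebra.commutes, ← Algebra.smul_def, map_smul, smul_eq_mul, mul_comm]
    | add x y hx hy => simp only [map_add, hx, hy]
  ext a
  exact h _

lemma conv_right (c : B →ₗ[R] R) (g : A →ₐ[R] B) (ψ : A →ₐ[R] R) :
    conv ψ.toLinearMap (c ∘ₗ g.toLinearMap) =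
      c ∘ₗ (homMul ((Algebra.ofId R B).comp ψ) g).toLinearMap := by
  have h : ∀ z : A ⊗[R] A, LinearMap.mul' R R (TensorProduct.map ψ.toLinearMap
      (c ∘ₗ g.toLinearMap) z) = c (Algebra.TensorProduct.lift ((Algebra.ofId R B).comp ψ) g
        (fun _ _ => Commute.all _ _) z) := by
    intro z
    induction z with
    | zero => simp
    | tmul a b =>
      simp only [TensorProduct.map_tmul, LinearMap.comp_apply, AlgHom.toLinearMap_apply,
        LinearMap.mul'_apply, Algebra.TensorProduct.lift_tmul, AlgHom.comp_apply,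
        Algebra.ofId_apply]
      rw [← Algebra.smul_def, map_smul, smul_eq_mul]
    | add x y hx hy => simp only [map_add, hx, hy]
  ext a
  exact h _

lemma conv_hom (g h : A →ₐ[R] R) :
    conv g.toLinearMap h.toLinearMap = (homMul g h).toLinearMap := by
  have h : ∀ z : A ⊗[R] A, LinearMap.mul' R R (TensorProduct.map g.toLinearMap
      h.toLinearMap z) = (Algebra.TensorProduct.lift g h
        (fun _ _ => Commute.all _ _) z) := by
    intro z
    induction z with
    | zero => simp
    | tmul a b => simp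
    | add x y hx hy => simp only [map_add, hx, hy]
  ext a
  exact h _

end homMul

section eps

variable {R : Type u} [CommRing R] (e : R) (he : e * e = 0)

lemma homMul_tt {B : Type u} [CommRing B] [Algebra R B] (g h : AA R →ₐ[R] B) :
    letI := hopf e he
    homMul g h tt = g tt * h tt * (1 + e • (g (xx 0) * h (xx 1))) := by
  letI := hopf e he
  have hc : (Coalgebra.comul (R := R) (tt : AA R)) = comulHom e he tt := rfl
  rw [homMul_apply, hc, comulHom_tt]
  simp [map_mul, map_add, map_smul]

lemma homMul_xx {B : Type u} [CommRing B] [Algebra R B] (g h : AA R →ₐ[R] B) (i : Fin 2) :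
    letI := hopf e he
    homMul g h (xx i) = g (xx i) + h (xx i) := by
  letI := hopf e he
  have hc : (Coalgebra.comul (R := R) (xx i : AA R)) = comulHom e he (xx i) := rfl
  rw [homMul_apply, hc, comulHom_xx]
  simp [map_add]

/-- the coefficient of `T` -/
noncomputable def coeffOne : R[T;T⁻¹] →ₗ[R] R where
  toFun f := f.coeff 1
  map_add' _ _ := by simp
  map_smul' _ _ := by simp

/-- the unit `T` -/
noncomputable def Tunit : (R[T;T⁻¹])ˣ where
  val := T 1
  inv := T (-1)
  val_inv := by rw [← T_add]; simp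
  inv_val := by rw [← T_add]; simp

lemma Tunit_zpow (n : ℤ) : ((Tunit ^ n : (R[T;T⁻¹])ˣ) : R[T;T⁻¹]) = T n := by
  induction n with
  | zero => simp
  | succ n ih =>
    rw [zpow_add_one, Units.val_mul, ih, T_add]
    rfl
  | pred n ih =>
    rw [zpow_sub_one, Units.val_mul, ih, sub_eq_add_neg, T_add]
    rfl

/-- the point `(T; 0)` -/
noncomputable def piHom : AA R →ₐ[R] R[T;T⁻¹] := pt Tunit (fun _ => 0)

@[simp] lemma piHom_tt : piHom (R := R) tt = T 1 := by
  unfold piHom
  rw [pt_tt]
  rfl

@[simp] lemma piHom_xx (i : Fin 2) : piHom (R := R) (xx i) = 0 := by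
  unfold piHom
  rw [pt_xx]

/-- the functional `coefficient of T at x = 0` -/
noncomputable def pp : AA R →ₗ[R] R := coeffOne ∘ₗ piHom.toLinearMap

lemma homMul_piHom (ψ : AA R →ₐ[R] R) :
    letI := hopf e he
    homMul piHom ((Algebra.ofId R _).comp ψ) = homMul ((Algebra.ofId R _).comp ψ) piHom := by
  letI := hopf e he
  refine hom_ext ?_ ?_
  · rw [homMul_tt, homMul_tt, piHom_xx, piHom_xx, zero_mul, mul_zero, mul_comm (piHom tt)]
  · intro i
    rw [homMul_xx, homMul_xx, add_comm]

lemma conv_pp_comm (ψ : AA R →ₐ[R] R) :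
    letI := hopf e he
    conv pp ψ.toLinearMap = conv ψ.toLinearMap pp := by
  letI := hopf e he
  unfold pp
  rw [conv_left, conv_right, homMul_piHom]

lemma map_pi_comp_comul : (Algebra.TensorProduct.map (piHom (R := R)) piHom).comp (comulHom e he) =
    (Bialgebra.comulAlgHom R R[T;T⁻¹]).comp piHom := by
  refine hom_ext ?_ ?_
  · simp only [AlgHom.comp_apply, comulHom_tt, map_mul, map_add, map_one, map_smul,
      Algebra.TensorProduct.map_tmul, piHom_tt, piHom_xx, TensorProduct.tmul_zero, smul_zero,
      add_zero, mul_one]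
    exact (comul_T 1).symm
  · intro i
    simp only [AlgHom.comp_apply, comulHom_xx, map_add, map_one, map_zero,
      Algebra.TensorProduct.map_tmul, piHom_xx, TensorProduct.tmul_zero, TensorProduct.zero_tmul,
      add_zero]

lemma coeffOne_T (n : ℤ) : coeffOne (R := R) (T n) = if n = 1 then 1 else 0 := by
  change (T n : R[T;T⁻¹]).coeff 1 = _
  rw [T_apply]

lemma laurent_linear_ext {N : Type u} [AddCommGroup N] [Module R N] {f g : R[T;T⁻¹] →ₗ[R] N}
    (h : ∀ n : ℤ, f (T n) = g (T n)) : f = g := by
  refine LinearMap.ext fun x => ?_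
  induction x using LaurentPolynomial.induction_on' with
  | add p q hp hq => rw [map_add, map_add, hp, hq]
  | C_mul_T n a => rw [← smul_eq_C_mul, map_smul, map_smul, h]

lemma conv_pp_pp :
    letI := hopf e he
    conv (R := R) (A := AA R) pp pp = pp := by
  letI := hopf e he
  have h1 : ∀ z : AA R ⊗[R] AA R, LinearMap.mul' R R (TensorProduct.map pp pp z) =
      LinearMap.mul' R R (TensorProduct.map coeffOne coeffOne
        (Algebra.TensorProduct.map (piHom (R := R)) piHom z)) := by
    intro z
    induction z with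
    | zero => simp
    | tmul a b => simp [pp]
    | add x y hx hy => simp only [map_add, hx, hy]
  have h2 : (LinearMap.mul' R R ∘ₗ TensorProduct.map coeffOne coeffOne) ∘ₗ
      (Bialgebra.comulAlgHom R R[T;T⁻¹]).toLinearMap = coeffOne := by
    refine laurent_linear_ext ?_
    intro n
    change LinearMap.mul' R R (TensorProduct.map coeffOne coeffOne
      (Coalgebra.comul (R := R) (T n : R[T;T⁻¹]))) = _
    rw [comul_T, TensorProduct.map_tmul, LinearMap.mul'_apply, coeffOne_T]
    split_ifs <;> simp
  ext a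
  change LinearMap.mul' R R (TensorProduct.map pp pp (comulHom e he a)) = pp a
  rw [h1, ← AlgHom.comp_apply, map_pi_comp_comul]
  exact congrArg (fun f => f (piHom a)) h2

/-- the unit `1 + e` -/
noncomputable def eunit : Rˣ where
  val := 1 + e
  inv := 1 - e
  val_inv := by linear_combination -he
  inv_val := by linear_combination -he

/-- the point `(1 + e; 0)` -/
noncomputable def zHom : AA R →ₐ[R] R := pt (eunit e he) (fun _ => 0)

lemma conv_pp_z :
    letI := hopf e he
    conv (R := R) (A := AA R) pp (zHom e he).toLinearMap = (1 + e) • pp := by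
  letI := hopf e he
  unfold pp
  rw [conv_left]
  -- the scaling automorphism
  set u : (R[T;T⁻¹])ˣ := Tunit * Units.map (algebraMap R R[T;T⁻¹]).toMonoidHom (eunit e he) with hu
  have h1 : homMul piHom ((Algebra.ofId R _).comp (zHom e he)) = (ptL u).comp piHom := by
    refine hom_ext ?_ ?_
    · rw [homMul_tt, piHom_xx, zero_mul, smul_zero, add_zero, mul_one, AlgHom.comp_apply,
        AlgHom.comp_apply, piHom_tt, ptL_T, zpow_one]
      unfold zHom
      rw [pt_tt]
      rfl
    · intro i
      rw [homMul_xx, piHom_xx, AlgHom.comp_apply, AlgHom.comp_apply, piHom_xx]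
      unfold zHom
      rw [pt_xx, map_zero, map_zero, add_zero]
  have h2 : coeffOne ∘ₗ (ptL (R := R) u).toLinearMap = (1 + e) • coeffOne := by
    refine laurent_linear_ext ?_
    intro n
    rw [LinearMap.comp_apply, AlgHom.toLinearMap_apply, ptL_T, LinearMap.smul_apply, coeffOne_T]
    have h3 : ((u ^ n : (R[T;T⁻¹])ˣ) : R[T;T⁻¹]) = ((eunit e he ^ n : Rˣ) : R) • T n := by
      rw [hu, mul_zpow, Units.val_mul, ← map_zpow]
      have h4 : ((Tunit ^ n : (R[T;T⁻¹])ˣ) : R[T;T⁻¹]) = T n := Tunit_zpow n
      rw [h4, Algebra.smul_def, mul_comm]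
      rfl
    rw [h3, map_smul, coeffOne_T]
    split_ifs with h
    · rw [h, zpow_one]
      rfl
    · simp
  rw [h1]
  have h5 : (coeffOne ∘ₗ ((ptL u).comp (piHom (R := R))).toLinearMap) =
    (coeffOne ∘ₗ (ptL (R := R) u).toLinearMap) ∘ₗ piHom.toLinearMap := rfl
  rw [h5, h2]
  rfl

end eps

section linear

variable {R V : Type u} [CommRing R] [AddCommGroup V] [Module R V] [Module.Finite R V]
  [Module.Free R V]

lemma det_one_add_smul_of_sq (e : R) (he : e * e = 0) (P : Module.End R V) :
    LinearMap.det (1 + e • P) = 1 + LinearMap.trace R V P * e := by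
  classical
  have b := Module.Free.chooseBasis R V
  rw [← LinearMap.det_toMatrix b, LinearMap.trace_eq_matrix_trace R b, map_add, map_smul]
  have h1 : LinearMap.toMatrix b b (1 : Module.End R V) = 1 := LinearMap.toMatrix_one b
  rw [h1, Matrix.det_one_add_smul, pow_two, he, mul_zero, add_zero]

lemma isUnit_det_aux {P U U' : Module.End R V} (hP : P * P = P)
    (hUU : U * U' = 1) (hU' : P * U' = U' * P) : IsUnit (LinearMap.det (U * P + (1 - P))) := by
  have h : (U * P + (1 - P)) * (U' * P + (1 - P)) = 1 := by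
    have h1 : (U * P) * (U' * P) = P := by
      rw [mul_assoc, ← mul_assoc P, hU', mul_assoc U', hP, ← mul_assoc, hUU, one_mul]
    have h2 : (U * P) * (1 - P) = 0 := by
      rw [mul_sub, mul_one, mul_assoc, hP, sub_self]
    have h3 : (1 - P) * (U' * P) = 0 := by
      rw [sub_mul, one_mul, ← mul_assoc, hU', mul_assoc, hP, sub_self]
    have h4 : (1 - P) * (1 - P) = 1 - P := by
      rw [mul_sub, mul_one, sub_mul, one_mul, hP, sub_self, sub_zero]
    rw [add_mul, mul_add, mul_add, h1, h2, h3, h4]
    abel
  have h2 := congrArg LinearMap.det h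
  rw [map_mul, map_one] at h2
  exact IsUnit.of_mul_eq_one _ h2

lemma trace_mul_eq_zero {e : R} (he : e * e = 0) {P U U' W W' : Module.End R V} (hP : P * P = P)
    (hU : P * U = U * P) (hUU : U * U' = 1) (hU' : P * U' = U' * P)
    (hW : P * W = W * P) (hWW : W * W' = 1) (hW' : P * W' = W' * P)
    (h : U * W * P = (1 + e) • (W * U * P)) : LinearMap.trace R V P * e = 0 := by
  have hPP : P * (1 - P) = 0 := by rw [mul_sub, mul_one, hP, sub_self]
  have hPP' : (1 - P) * P = 0 := by rw [sub_mul, one_mul, hP, sub_self]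
  have h4 : (1 - P) * (1 - P) = 1 - P := by
    rw [mul_sub, mul_one, hPP', sub_zero]
  have h1 : (U * P + (1 - P)) * (W * P + (1 - P)) = U * W * P + (1 - P) := by
    have e1 : (U * P) * (W * P) = U * W * P := by
      rw [mul_assoc, ← mul_assoc P, hW, mul_assoc W, hP, ← mul_assoc]
    have e2 : (U * P) * (1 - P) = 0 := by rw [mul_assoc, hPP, mul_zero]
    have e3 : (1 - P) * (W * P) = 0 := by
      rw [← hW, ← mul_assoc, hPP', zero_mul]
    rw [add_mul, mul_add, mul_add, e1, e2, e3, h4]
    abel
  have h2 : (W * P + (1 - P)) * (U * P + (1 - P)) = W * U * P + (1 - P) := by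
    have e1 : (W * P) * (U * P) = W * U * P := by
      rw [mul_assoc, ← mul_assoc P, hU, mul_assoc U, hP, ← mul_assoc]
    have e2 : (W * P) * (1 - P) = 0 := by rw [mul_assoc, hPP, mul_zero]
    have e3 : (1 - P) * (U * P) = 0 := by
      rw [← hU, ← mul_assoc, hPP', zero_mul]
    rw [add_mul, mul_add, mul_add, e1, e2, e3, h4]
    abel
  have h3 : (1 + e • P) * (W * U * P + (1 - P)) = U * W * P + (1 - P) := by
    have e1 : P * (W * U * P) = W * U * P := by
      rw [← mul_assoc, ← mul_assoc, hW, mul_assoc W, hU, mul_assoc, mul_assoc, mul_assoc, hP]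
    rw [add_mul, one_mul, smul_mul_assoc, mul_add, e1, hPP, add_zero, h, add_smul, one_smul]
    abel
  have hdet := congrArg LinearMap.det h3
  rw [← h1, ← h2, map_mul, map_mul, map_mul, det_one_add_smul_of_sq e he] at hdet
  have u1 := isUnit_det_aux hP hUU hU'
  have u2 := isUnit_det_aux hP hWW hW'
  have h5 : (LinearMap.trace R V P * e) * (LinearMap.det (W * P + (1 - P)) *
      LinearMap.det (U * P + (1 - P))) = 0 := by
    linear_combination hdet
  exact (u2.mul u1).mul_left_eq_zero.1 h5

end linear

section main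

open DualNumber

variable {R : Type u} [CommRing R] (e : R) (he : e * e = 0)

lemma homMul_pt_one (a b : Fin 2 → R) (h : e * (a 0 * b 1) = 0) (hab : ∀ i, a i + b i = 0) :
    letI := hopf e he
    (homMul (pt 1 a) (pt 1 b)).toLinearMap = (Coalgebra.counit (R := R) (A := AA R)) := by
  letI := hopf e he
  have h1 : homMul (pt 1 a) (pt 1 b) = counitHom (R := R) := by
    refine hom_ext ?_ ?_
    · rw [homMul_tt, pt_tt, pt_tt, pt_xx, pt_xx, smul_eq_mul, h, counitHom_tt]
      simp
    · intro i
      rw [homMul_xx, pt_xx, pt_xx, hab, counitHom_xx]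
  rw [h1]
  rfl

/-- Over a local ring, the weight one part of a finite projective comodule has rank `r` with
`r * e = 0`. -/
lemma finrank_mul_eq_zero [IsLocalRing R] (V : Type u) [AddCommGroup V] [Module R V]
    [Module.Finite R V] [Module.Projective R V]
    (d : letI := hopf e he; Comodule R (AA R) V) :
    letI := hopf e he
    (act d pp = 0) ∨ (∃ n : ℕ, n ≠ 0 ∧ (n : R) * e = 0) := by
  letI := hopf e he
  have : Module.Free R V := Module.free_of_flat_of_isLocalRing
  set P : Module.End R V := act d pp with hPdef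
  set u : AA R →ₐ[R] R := pt 1 ![1, 0]
  set u' : AA R →ₐ[R] R := pt 1 ![-1, 0]
  set w : AA R →ₐ[R] R := pt 1 ![0, 1]
  set w' : AA R →ₐ[R] R := pt 1 ![0, -1]
  have hP : P * P = P := by
    rw [hPdef, act_comp, conv_pp_pp]
  have hcomm : ∀ ψ : AA R →ₐ[R] R, P * act d ψ.toLinearMap = act d ψ.toLinearMap * P := by
    intro ψ
    rw [hPdef, act_comp, act_comp, conv_pp_comm]
  have hUU : act d u.toLinearMap * act d u'.toLinearMap = 1 := by
    rw [act_comp, conv_hom, homMul_pt_one e he _ _ (by simp) (by intro i; fin_cases i <;> simp),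
      act_counit]
  have hWW : act d w.toLinearMap * act d w'.toLinearMap = 1 := by
    rw [act_comp, conv_hom, homMul_pt_one e he _ _ (by simp) (by intro i; fin_cases i <;> simp),
      act_counit]
  have hUW : homMul u w = homMul (zHom e he) (homMul w u) := by
    refine hom_ext ?_ ?_
    · rw [homMul_tt, homMul_tt, homMul_tt, homMul_xx]
      simp only [zHom, u, w, pt_tt, pt_xx]
      simp [eunit]
    · intro i
      rw [homMul_xx, homMul_xx, homMul_xx]
      simp only [zHom, u, w, pt_xx]
      fin_cases i <;> simp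
  have hZP : act d (zHom e he).toLinearMap * P = (1 + e) • P := by
    rw [← hcomm, hPdef, act_comp, conv_pp_z]
    ext v
    simp [act, ev, LinearMap.lTensor_smul]
  have hmain : act d u.toLinearMap * act d w.toLinearMap * P =
      (1 + e) • (act d w.toLinearMap * act d u.toLinearMap * P) := by
    have h1 : act d u.toLinearMap * act d w.toLinearMap =
        act d (zHom e he).toLinearMap * (act d w.toLinearMap * act d u.toLinearMap) := by
      rw [act_comp, act_comp, act_comp, conv_hom, conv_hom, conv_hom, hUW]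
    rw [h1, mul_assoc (act d (zHom e he).toLinearMap), mul_assoc (act d w.toLinearMap),
      ← hcomm u, ← mul_assoc (act d w.toLinearMap) P, ← hcomm w, mul_assoc P, ← mul_assoc _ P,
      hZP, smul_mul_assoc]
  have htr := trace_mul_eq_zero he hP (hcomm u) hUU (hcomm u') (hcomm w) hWW (hcomm w') hmain
  -- range and kernel are free
  have hproj : LinearMap.IsProj (LinearMap.range P) P :=
    LinearMap.IsIdempotentElem.isProj_range P hP
  have f1 : Module.Finite R (LinearMap.range P) := Module.Finite.range P
  have p1 : Module.Projective R (LinearMap.range P) := by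
    refine Module.Projective.of_split (LinearMap.range P).subtype P.rangeRestrict ?_
    ext ⟨x, hx⟩
    simpa using hproj.map_id x hx
  have fr1 : Module.Free R (LinearMap.range P) := Module.free_of_flat_of_isLocalRing
  let q : V →ₗ[R] LinearMap.ker P := LinearMap.codRestrict (LinearMap.ker P) (1 - P) (by
    intro v
    have : (P * (1 - P)) v = 0 := by rw [mul_sub, mul_one, hP, sub_self]; rfl
    exact this)
  have hq : q ∘ₗ (LinearMap.ker P).subtype = LinearMap.id := by
    ext ⟨x, hx⟩
    have hx' : P x = 0 := hx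
    change (1 - P) x = x
    rw [LinearMap.sub_apply, hx', sub_zero]
    rfl
  have f2 : Module.Finite R (LinearMap.ker P) :=
    Module.Finite.of_surjective q (fun x => ⟨x, congrArg (fun f => f x) hq⟩)
  have p2 : Module.Projective R (LinearMap.ker P) :=
    Module.Projective.of_split (LinearMap.ker P).subtype q hq
  have fr2 : Module.Free R (LinearMap.ker P) := Module.free_of_flat_of_isLocalRing
  rw [hproj.trace] at htr
  by_cases hn : Module.finrank R (LinearMap.range P) = 0
  · left
    have h1 : Subsingleton (LinearMap.range P) := (Module.finrank_eq_zero_iff_of_free R _).1 hn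
    rw [Submodule.subsingleton_iff_eq_bot, LinearMap.range_eq_bot] at h1
    exact h1
  · right
    exact ⟨_, hn, htr⟩

/-- The one-dimensional comodule `R / (e)` of weight one. -/
noncomputable def weightOne :
    letI := hopf e he
    Comodule R (AA R) (R ⧸ Ideal.span {e}) :=
  letI := hopf e he
  { coact := (TensorProduct.mk R (R ⧸ Ideal.span {e}) (AA R)).flip tt
    counit_coact := by
      intro m
      have h : Coalgebra.counit (R := R) (tt : AA R) = 1 := counitHom_tt
      simp [h]
    coassoc := by
      intro m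
      have h : Coalgebra.comul (R := R) (tt : AA R) = (tt ⊗ₜ tt) * (1 + e • (xx 0 ⊗ₜ xx 1)) :=
        comulHom_tt e he
      have h2 : e • m = 0 := by
        obtain ⟨x, rfl⟩ := Ideal.Quotient.mk_surjective m
        rw [← Ideal.Quotient.mkₐ_eq_mk R, ← map_smul, Ideal.Quotient.mkₐ_eq_mk,
          Ideal.Quotient.eq_zero_iff_mem, smul_eq_mul]
        exact Ideal.mul_mem_right _ _ (Ideal.mem_span_singleton_self e)
      simp only [LinearMap.flip_apply, TensorProduct.mk_apply, LinearMap.rTensor_tmul,
        TensorProduct.assoc_tmul, LinearMap.lTensor_tmul, h]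
      rw [mul_add, mul_one, mul_smul_comm, TensorProduct.tmul_add, TensorProduct.tmul_smul,
        TensorProduct.smul_tmul', h2, TensorProduct.zero_tmul, add_zero] }

/-- A finite projective comodule mapping onto the weight one comodule `R / (e)` forces a positive
integer `n` with `n * e = 0`. -/
lemma exists_nat_mul_eq_zero [IsLocalRing R] (hne : Ideal.span {e} ≠ ⊤)
    (h : letI := hopf e he; ResolutionProperty R (AA R)) : ∃ n : ℕ, n ≠ 0 ∧ (n : R) * e = 0 := by
  letI := hopf e he
  obtain ⟨V, i1, i2, d, f, hfin, hproj, hsurj, hf⟩ :=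
    h (R ⧸ Ideal.span {e}) (weightOne e he) inferInstance
  rcases finrank_mul_eq_zero e he V d with h0 | h0
  · exfalso
    have hnt : Nontrivial (R ⧸ Ideal.span {e}) := Ideal.Quotient.nontrivial_iff.2 hne
    obtain ⟨v, hv⟩ := hsurj 1
    have h1 := act_map (weightOne e he) d f hf pp v
    rw [h0, LinearMap.zero_apply, map_zero, hv] at h1
    have h2 : act (weightOne e he) pp (1 : R ⧸ Ideal.span {e}) =
        (pp (R := R) tt) • (1 : R ⧸ Ideal.span {e}) := by
      change ev _ pp (1 ⊗ₜ[R] tt) = _
      rw [ev_tmul]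
    have h3 : pp (R := R) tt = 1 := by
      change coeffOne (piHom tt) = 1
      rw [piHom_tt, coeffOne_T, if_pos rfl]
    rw [h2, h3, one_smul] at h1
    exact one_ne_zero h1
  · exact h0

instance smooth_AA : Algebra.Smooth R (AA R) := by
  have h1 : Algebra.Smooth R (Polynomial R) := ⟨inferInstance, inferInstance⟩
  have h2 : Algebra.Smooth (Polynomial R) R[T;T⁻¹] :=
    Algebra.Smooth.of_isLocalization_Away (Polynomial.X : Polynomial R)
  have h3 : IsScalarTower R (Polynomial R) R[T;T⁻¹] := by
    refine IsScalarTower.of_algebraMap_eq fun r => ?_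
    rw [← LaurentPolynomial.C_eq_algebraMap, LaurentPolynomial.algebraMap_eq_toLaurent,
      Polynomial.algebraMap_eq, Polynomial.toLaurent_C]
  have h4 : Algebra.Smooth R R[T;T⁻¹] := Algebra.Smooth.comp R (Polynomial R) R[T;T⁻¹]
  have h5 : Algebra.Smooth R[T;T⁻¹] (MvPolynomial (Fin 2) R[T;T⁻¹]) := ⟨inferInstance, inferInstance⟩
  exact Algebra.Smooth.comp R R[T;T⁻¹] (MvPolynomial (Fin 2) R[T;T⁻¹])

include he in
theorem main [IsLocalRing R] (hmax : (Ideal.span {e}).IsMaximal)
    (hn : ∀ n : ℕ, n ≠ 0 → (n : R) * e ≠ 0) :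
    ∃ (A : Type u) (_ : CommRing A) (_ : HopfAlgebra R A),
      Algebra.Smooth R A ∧
      (Ideal.span {e}) ^ 2 = ⊥ ∧
      ResolutionPropertyOn R A (Ideal.span {e}) ∧
      ¬ ResolutionProperty R A := by
  refine ⟨AA R, inferInstance, hopf e he, smooth_AA, ?_, ?_, ?_⟩
  · rw [Ideal.span_singleton_pow, pow_two, he, Ideal.span_singleton_eq_bot]
  · letI := hopf e he
    exact resolutionPropertyOn_of_isMaximal _ _ _ hmax
  · intro h
    obtain ⟨n, hn0, h0⟩ := exists_nat_mul_eq_zero e he hmax.ne_top h
    exact hn n hn0 h0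

end main

end Pool.Agent.Lib_helper95.Resolution
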