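import Mathlib

/-!
# Zero-dimensional, homogeneous, strongly homogeneous and sigma-homogeneous spaces
-/

namespace Pool.Agent.Lib_helper95.SH

/-- A space is zero-dimensional if its clopen sets form a base. -/
def ZeroDimensional (X : Type) [TopologicalSpace X] : Prop :=
  TopologicalSpace.IsTopologicalBasis {U : Set X | IsClopen U}

/-- A space is homogeneous if any point can be moved to any other by a self-homeomorphism. -/
def Homogeneous (X : Type) [TopologicalSpace X] : Prop :=
  ∀ x y : X, ∃ h : X ≃ₜ X, h x = y

/-- A non-empty space is strongly homogeneous if every non-empty clopen subset, with the subspace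
topology, is homeomorphic to the whole space. -/
def StronglyHomogeneous (X : Type) [TopologicalSpace X] : Prop :=
  Nonempty X ∧ ∀ U : Set X, IsClopen U → U.Nonempty → Nonempty (U ≃ₜ X)

/-- A space is sigma-homogeneous if it is a countable union of homogeneous subspaces. -/
def SigmaHomogeneous (X : Type) [TopologicalSpace X] : Prop :=
  ∃ S : ℕ → Set X, (⋃ n, S n) = Set.univ ∧ ∀ n, Homogeneous (S n)

/-- A space is sigma-homogeneous with strongly homogeneous witnesses if it is a countable union of
strongly homogeneous subspaces. -/
def SigmaStronglyHomogeneous (X : Type) [TopologicalSpace X] : Prop :=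
  ∃ S : ℕ → Set X, (⋃ n, S n) = Set.univ ∧ ∀ n, StronglyHomogeneous (S n)

end Pool.Agent.Lib_helper95.SH
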