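import Mathlib

/-!
# A fusion lemma: perfectly many points avoiding countably many closed nowhere dense relations
-/

namespace Pool.Agent.Lib_helper95.SH

open Set

section fusion

variable {X : Type*} [TopologicalSpace X] [CompactSpace X] [T2Space X] [TotallyDisconnectedSpace X]

/-- `E` has dense complement, in the form of boxes. -/
def Thin (E : Set (X × X)) : Prop :=
  ∀ U V : Set X, IsOpen U → IsOpen V → U.Nonempty → V.Nonempty → ∃ p ∈ U, ∃ q ∈ V, (p, q) ∉ E

lemma shrink_pair {E : Set (X × X)} (hE : IsClosed E) (hd : Thin E) {U V : Set X}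
    (hU : IsClopen U) (hV : IsClopen V) (hUn : U.Nonempty) (hVn : V.Nonempty) :
    ∃ U' V' : Set X, IsClopen U' ∧ IsClopen V' ∧ U'.Nonempty ∧ V'.Nonempty ∧ U' ⊆ U ∧ V' ⊆ V ∧
      ∀ p ∈ U', ∀ q ∈ V', (p, q) ∉ E := by
  obtain ⟨p, hp, q, hq, hpq⟩ := hd U V hU.isOpen hV.isOpen hUn hVn
  have hopen : IsOpen Eᶜ := hE.isOpen_compl
  rw [isOpen_prod_iff] at hopen
  obtain ⟨u, v, hu, hv, hpu, hqv, huv⟩ := hopen p q hpq
  obtain ⟨U', hU', hpU', hU'u⟩ := compact_exists_isClopen_in_isOpen (hu.inter hU.isOpen) ⟨hpu, hp⟩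
  obtain ⟨V', hV', hqV', hV'v⟩ := compact_exists_isClopen_in_isOpen (hv.inter hV.isOpen) ⟨hqv, hq⟩
  refine ⟨U', V', hU', hV', ⟨p, hpU'⟩, ⟨q, hqV'⟩, fun x hx => (hU'u hx).2,
    fun x hx => (hV'v hx).2, ?_⟩
  intro x hx y hy hxy
  exact huv ⟨(hU'u hx).1, (hV'v hy).1⟩ hxy

lemma shrink_finset {ι : Type*} [DecidableEq ι] (E : ℕ → Set (X × X))
    (hE : ∀ j, IsClosed (E j)) (hd : ∀ j, Thin (E j)) (s : Finset (ι × ι × ℕ))
    (hs : ∀ r ∈ s, r.1 ≠ r.2.1) (C : ι → Set X) (hC : ∀ i, IsClopen (C i) ∧ (C i).Nonempty) :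
    ∃ D : ι → Set X, (∀ i, IsClopen (D i) ∧ (D i).Nonempty) ∧ (∀ i, D i ⊆ C i) ∧
      ∀ r ∈ s, ∀ p ∈ D r.1, ∀ q ∈ D r.2.1, (p, q) ∉ E r.2.2 := by
  classical
  induction s using Finset.induction_on with
  | empty => exact ⟨C, hC, fun _ => subset_rfl, by simp⟩
  | insert r s _ ih =>
    obtain ⟨D, hD, hDC, hDs⟩ := ih (fun r' hr' => hs r' (Finset.mem_insert_of_mem hr'))
    obtain ⟨a, b, j⟩ := r
    have hab : a ≠ b := hs (a, b, j) (Finset.mem_insert_self _ _)
    obtain ⟨U, V, hU, hV, hUn, hVn, hUD, hVD, hUV⟩ :=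
      shrink_pair (hE j) (hd j) (hD a).1 (hD b).1 (hD a).2 (hD b).2
    refine ⟨Function.update (Function.update D a U) b V, ?_, ?_, ?_⟩
    · intro i
      by_cases hib : i = b
      · subst hib
        simp only [Function.update_self]
        exact ⟨hV, hVn⟩
      · rw [Function.update_of_ne hib]
        by_cases hia : i = a
        · subst hia
          simp only [Function.update_self]
          exact ⟨hU, hUn⟩
        · rw [Function.update_of_ne hia]
          exact hD i
    · intro i
      refine subset_trans ?_ (hDC i)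
      by_cases hib : i = b
      · subst hib
        simpa only [Function.update_self] using hVD
      · rw [Function.update_of_ne hib]
        by_cases hia : i = a
        · subst hia
          simpa only [Function.update_self] using hUD
        · rw [Function.update_of_ne hia]
    · have hsub : ∀ i, Function.update (Function.update D a U) b V i ⊆ D i := by
        intro i
        by_cases hib : i = b
        · subst hib
          simpa only [Function.update_self] using hVD
        · rw [Function.update_of_ne hib]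
          by_cases hia : i = a
          · subst hia
            simpa only [Function.update_self] using hUD
          · rw [Function.update_of_ne hia]
      intro r hr p hp q hq
      rcases Finset.mem_insert.1 hr with rfl | hr'
      · simp only at hp hq ⊢
        rw [Function.update_of_ne hab, Function.update_self] at hp
        rw [Function.update_self] at hq
        exact hUV p hp q hq
      · exact hDs r hr' p (hsub _ hp) q (hsub _ hq)

/-- The `n`-th level of the fusion. -/
structure Lvl (E : ℕ → Set (X × X)) (n : ℕ) where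
  /-- the clopen sets -/
  C : (Fin n → Bool) → Set X
  /-- they are clopen and nonempty -/
  good : ∀ t, IsClopen (C t) ∧ (C t).Nonempty
  /-- requirements -/
  sep : ∀ t t', t ≠ t' → ∀ j < n, ∀ p ∈ C t, ∀ q ∈ C t', (p, q) ∉ E j

lemma Lvl.step {E : ℕ → Set (X × X)} (hE : ∀ j, IsClosed (E j)) (hd : ∀ j, Thin (E j)) {n : ℕ}
    (c : Lvl E n) : ∃ d : Lvl E (n + 1), ∀ t, d.C t ⊆ c.C (Fin.init (α := fun _ => Bool) t) := by
  classical
  obtain ⟨D, hD, hDC, hDs⟩ := shrink_finset E hE hd
    ((Finset.univ ×ˢ (Finset.univ ×ˢ Finset.range (n + 1))).filter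
      (fun r : (Fin (n + 1) → Bool) × (Fin (n + 1) → Bool) × ℕ => r.1 ≠ r.2.1))
    (by intro r hr; exact (Finset.mem_filter.1 hr).2)
    (fun t => c.C (Fin.init (α := fun _ => Bool) t)) (fun t => c.good _)
  refine ⟨⟨D, hD, ?_⟩, hDC⟩
  intro t t' htt' j hj p hp q hq
  exact hDs (t, t', j) (by simp [htt', hj]) p hp q hq

/-- **Fusion lemma.** -/
theorem fusion [Nonempty X] (E : ℕ → Set (X × X)) (hE : ∀ j, IsClosed (E j))
    (hd : ∀ j, Thin (E j)) :
    ∃ x : (ℕ → Bool) → X, ∀ b b', b ≠ b' → ∀ j, (x b, x b') ∉ E j := by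
  classical
  let c0 : Lvl E 0 := ⟨fun _ => univ, fun _ => ⟨isClopen_univ, univ_nonempty⟩,
    fun t t' h => absurd (Subsingleton.elim t t') h⟩
  let c : (n : ℕ) → Lvl E n := fun n => Nat.rec c0 (fun n d => (Lvl.step hE hd d).choose) n
  have hc : ∀ n t, (c (n + 1)).C t ⊆ (c n).C (Fin.init (α := fun _ => Bool) t) :=
    fun n => (Lvl.step hE hd (c n)).choose_spec
  have hne : ∀ b : ℕ → Bool, (⋂ n, (c n).C (fun i => b i)).Nonempty := by
    intro b
    apply IsCompact.nonempty_iInter_of_sequence_nonempty_isCompact_isClosed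
    · intro n
      exact hc n _
    · intro n
      exact ((c n).good _).2
    · exact ((c 0).good _).1.isClosed.isCompact
    · intro n
      exact ((c n).good _).1.isClosed
  choose x hx using hne
  refine ⟨x, fun b b' hbb' j => ?_⟩
  obtain ⟨m, hm⟩ := Function.ne_iff.1 hbb'
  have h1 := mem_iInter.1 (hx b) (max (m + 1) (j + 1))
  have h2 := mem_iInter.1 (hx b') (max (m + 1) (j + 1))
  refine (c (max (m + 1) (j + 1))).sep _ _ ?_ j ?_ _ h1 _ h2
  · intro h
    apply hm
    exact congrFun h ⟨m, lt_of_lt_of_le (Nat.lt_succ_self m) (le_max_left _ _)⟩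
  · exact lt_of_lt_of_le (Nat.lt_succ_self j) (le_max_right _ _)

end fusion

end Pool.Agent.Lib_helper95.SH
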