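import Pool.Agent.Lib_helper95.SHFusion

/-!
# Perfectly many points on which countably many Borel maps are injective
-/

namespace Pool.Agent.Lib_helper95.SH

open Set MeasureTheory Filter Topology

/-- The Cantor group. -/
abbrev GG : Type := ℕ → ZMod 2

section lusin

variable {G : Type*} [TopologicalSpace G] [T2Space G] [MeasurableSpace G] [BorelSpace G]
  (μ : Measure G) [IsFiniteMeasure μ] [μ.InnerRegularCompactLTTop]

/-- A Lusin type statement for countably many measurable sets. -/
lemma exists_compact_clopen (B : ℕ → Set G) (hB : ∀ m, MeasurableSet (B m)) {W : Set G}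
    (hW : MeasurableSet W) (hμ : μ W ≠ 0) :
    ∃ P ⊆ W, IsCompact P ∧ μ P ≠ 0 ∧
      ∀ m, ∃ C D : Set G, IsClosed C ∧ IsClosed D ∧ Disjoint C D ∧ P ⊆ C ∪ D ∧
        P ∩ C ⊆ B m ∧ P ∩ D ⊆ (B m)ᶜ := by
  obtain ⟨δ, hδ, hsum⟩ := ENNReal.exists_pos_sum_of_countable (ε := μ W) hμ ℕ
  have hδ2 : ∀ m, ((δ m / 2 : NNReal) : ENNReal) ≠ 0 := fun m => by
    have := hδ m
    simp only [ne_eq, ENNReal.coe_eq_zero]
    exact (by positivity : (δ m / 2 : NNReal) ≠ 0)
  have h1 : ∀ m, ∃ C ⊆ W ∩ B m, IsCompact C ∧ μ (W ∩ B m) < μ C + ((δ m / 2 : NNReal) : ENNReal) :=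
    fun m => (hW.inter (hB m)).exists_isCompact_lt_add (measure_ne_top _ _) (hδ2 m)
  have h2 : ∀ m, ∃ D ⊆ W ∩ (B m)ᶜ, IsCompact D ∧
      μ (W ∩ (B m)ᶜ) < μ D + ((δ m / 2 : NNReal) : ENNReal) :=
    fun m => (hW.inter (hB m).compl).exists_isCompact_lt_add (measure_ne_top _ _) (hδ2 m)
  choose C hCW hCc hCμ using h1
  choose D hDW hDc hDμ using h2
  have hdisj : ∀ m, Disjoint (C m) (D m) := fun m =>
    Set.disjoint_left.2 fun x hx hx' => (hDW m hx').2 (hCW m hx).2
  have hbad : ∀ m, μ (W \ (C m ∪ D m)) ≤ δ m := by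
    intro m
    have e1 : μ (C m ∪ D m) = μ (C m) + μ (D m) :=
      measure_union (hdisj m) (hDc m).measurableSet
    have e2 : μ W = μ (W ∩ B m) + μ (W ∩ (B m)ᶜ) := by
      rw [← measure_inter_add_sdiff W (hB m)]
      rfl
    have e3 : μ (W \ (C m ∪ D m)) = μ W - μ (C m ∪ D m) :=
      measure_sdiff (union_subset (fun x hx => (hCW m hx).1) (fun x hx => (hDW m hx).1))
        ((hCc m).union (hDc m)).measurableSet.nullMeasurableSet (measure_ne_top _ _)
    rw [e3, e1, e2, tsub_le_iff_left]
    calc μ (W ∩ B m) + μ (W ∩ (B m)ᶜ)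
        ≤ (μ (C m) + ((δ m / 2 : NNReal) : ENNReal)) + (μ (D m) + ((δ m / 2 : NNReal) : ENNReal)) :=
          add_le_add (hCμ m).le (hDμ m).le
      _ = μ (C m) + μ (D m) + (((δ m / 2 : NNReal) : ENNReal) + ((δ m / 2 : NNReal) : ENNReal)) := by
          ring
      _ = μ (C m) + μ (D m) + δ m := by
          rw [← ENNReal.coe_add, add_halves]
  refine ⟨⋂ m, (C m ∪ D m), ?_, ?_, ?_, ?_⟩
  · intro x hx
    rcases mem_iInter.1 hx 0 with h | h
    · exact (hCW 0 h).1
    · exact (hDW 0 h).1
  · exact ((hCc 0).union (hDc 0)).of_isClosed_subset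
      (isClosed_iInter fun m => ((hCc m).union (hDc m)).isClosed) (iInter_subset _ 0)
  · intro h0
    have h3 : μ W ≤ μ (⋂ m, (C m ∪ D m)) + ∑' m, μ (W \ (C m ∪ D m)) := by
      have : W ⊆ (⋂ m, (C m ∪ D m)) ∪ ⋃ m, (W \ (C m ∪ D m)) := by
        intro x hx
        by_cases h : ∀ m, x ∈ C m ∪ D m
        · exact Or.inl (mem_iInter.2 h)
        · push Not at h
          obtain ⟨m, hm⟩ := h
          exact Or.inr (mem_iUnion.2 ⟨m, hx, hm⟩)
      exact (measure_mono this).trans ((measure_union_le _ _).trans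
        (add_le_add le_rfl (measure_iUnion_le _)))
    rw [h0, zero_add] at h3
    exact absurd (h3.trans (ENNReal.tsum_le_tsum hbad)) (not_le.2 hsum)
  · intro m
    refine ⟨C m, D m, (hCc m).isClosed, (hDc m).isClosed, hdisj m, iInter_subset _ m, ?_, ?_⟩
    · exact fun x hx => (hCW m hx.2).2
    · exact fun x hx => (hDW m hx.2).2

end lusin

section atoms

variable {G H : Type*} [MeasurableSpace G] [MeasurableSpace H] [MeasurableSingletonClass H]
  (μ : Measure G) [IsFiniteMeasure μ]

lemma countable_atoms {θ : G → H} (hθ : Measurable θ) : {y | μ (θ ⁻¹' {y}) ≠ 0}.Countable := by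
  have h := Measure.countable_meas_pos_of_disjoint_iUnion (μ := μ) (As := fun y => θ ⁻¹' {y})
    (fun y => hθ (measurableSet_singleton y)) (by
      intro a b hab
      exact Set.disjoint_left.2 fun x hx hx' => hab (hx.symm.trans hx'))
  simpa only [pos_iff_ne_zero] using h

lemma measurableSet_regular {θ : G → H} (hθ : Measurable θ) :
    MeasurableSet {x | μ (θ ⁻¹' {θ x}) = 0} := by
  have h : {x | μ (θ ⁻¹' {θ x}) = 0} = (θ ⁻¹' {y | μ (θ ⁻¹' {y}) ≠ 0})ᶜ := by
    ext x
    simp
  rw [h]
  exact (hθ (countable_atoms μ hθ).measurableSet).compl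

end atoms

section main

variable (μ : Measure GG) [IsFiniteMeasure μ]

lemma continuousOn_of_clopen {P : Set GG} {θ : GG → GG}
    (h : ∀ n : ℕ, IsClopen {x : P | θ x n = 1}) : Continuous fun x : P => θ x := by
  refine continuous_pi fun n => ?_
  have h1 : IsLocallyConstant fun x : P => θ x n := by
    rw [IsLocallyConstant.iff_isOpen_fiber]
    intro z
    have hz : z = 1 ∨ z = 0 := by
      revert z
      decide
    rcases hz with rfl | rfl
    · exact (h n).isOpen
    · have : (fun x : P => θ x n) ⁻¹' {0} = {x : P | θ x n = 1}ᶜ := by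
        ext x
        simp only [mem_preimage, mem_singleton_iff, mem_compl_iff, mem_ofPred_eq]
        generalize θ x n = w
        revert w
        decide
      rw [this]
      exact (h n).compl.isOpen
  exact h1.continuous

/-- **Perfectly many points on which countably many Borel maps are injective**, off their
fibres of positive measure. -/
theorem exists_injective_family {ι : Type} [Countable ι] [Nonempty ι] (hμ : μ ≠ 0)
    (θ : ι → GG → GG) (hθ : ∀ i, Measurable (θ i)) {N : Set GG} (hN : MeasurableSet N)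
    (hN0 : μ N = 0) :
    ∃ x : (ℕ → Bool) → GG, (∀ b, x b ∉ N) ∧
      ∀ b b', b ≠ b' → ∀ i, μ (θ i ⁻¹' {θ i (x b)}) = 0 → θ i (x b) ≠ θ i (x b') := by
  classical
  obtain ⟨f, hf⟩ := exists_surjective_nat ι
  -- the measurable sets which we want to be clopen
  let B : ℕ → Set GG := fun m =>
    match (Nat.unpair m).2 with
    | 0 => {x | μ (θ (f (Nat.unpair m).1) ⁻¹' {θ (f (Nat.unpair m).1) x}) = 0}
    | n + 1 => {x | θ (f (Nat.unpair m).1) x n = 1}
  have hB : ∀ m, MeasurableSet (B m) := by
    intro m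
    simp only [B]
    split
    · exact measurableSet_regular μ (hθ _)
    · exact (measurable_pi_iff.1 (hθ _) _) (measurableSet_singleton 1)
  have hWμ : μ Nᶜ ≠ 0 := by
    intro h
    apply hμ
    rw [← Measure.measure_univ_eq_zero, ← union_compl_self N]
    exact le_antisymm ((measure_union_le _ _).trans (by rw [hN0, h, add_zero])) bot_le
  obtain ⟨P, hPN, hPc, hPμ, hPB⟩ := exists_compact_clopen μ B hB hN.compl hWμ
  -- the support
  set S : Set GG := (μ.restrict P).support with hS
  have hSP : S ⊆ P := by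
    refine Measure.support_subset_of_isClosed hPc.isClosed ?_
    rw [mem_ae_iff, Measure.restrict_apply hPc.measurableSet.compl]
    simp
  have hSclosed : IsClosed S := Measure.isClosed_support
  have hScompl : (μ.restrict P) Sᶜ = 0 := Measure.measure_compl_support
  have hSpos : ∀ U : Set GG, IsOpen U → (U ∩ S).Nonempty → μ (U ∩ S) ≠ 0 := by
    intro U hU hne h0
    obtain ⟨x, hxU, hxS⟩ := hne
    have h1 := (Measure.mem_support_iff_forall x).1 hxS U (hU.mem_nhds hxU)
    have h2 : (μ.restrict P) U ≤ μ (U ∩ S) + (μ.restrict P) Sᶜ := by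
      rw [Measure.restrict_apply hU.measurableSet,
        Measure.restrict_apply hSclosed.measurableSet.compl]
      refine (measure_mono ?_).trans (measure_union_le _ _)
      intro y hy
      by_cases hyS : y ∈ S
      · exact Or.inl ⟨hy.1, hyS⟩
      · exact Or.inr ⟨hyS, hy.2⟩
    rw [h0, hScompl, add_zero] at h2
    exact absurd h1 (not_lt.2 h2)
  have hSne : Nonempty S := by
    have : (μ.restrict P) ≠ 0 := by
      intro h
      apply hPμ
      have := congrArg (fun ν => ν univ) h
      simpa using this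
    exact (Measure.nonempty_support this).to_subtype
  have hcS : CompactSpace S := isCompact_iff_compactSpace.1 hSclosed.isCompact
  -- clopen sets in S
  have hclopen : ∀ m, IsClopen {x : S | (x : GG) ∈ B m} := by
    intro m
    obtain ⟨C, D, hC, hD, hdisj, hPCD, hCB, hDB⟩ := hPB m
    have e1 : {x : S | (x : GG) ∈ B m} = {x : S | (x : GG) ∈ C} := by
      ext x
      constructor
      · intro hx
        rcases hPCD (hSP x.2) with h | h
        · exact h
        · exact absurd hx (hDB ⟨hSP x.2, h⟩)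
      · intro hx
        exact hCB ⟨hSP x.2, hx⟩
    have e2 : {x : S | (x : GG) ∈ B m}ᶜ = {x : S | (x : GG) ∈ D} := by
      ext x
      constructor
      · intro hx
        rcases hPCD (hSP x.2) with h | h
        · exact absurd (hCB ⟨hSP x.2, h⟩) hx
        · exact h
      · intro hx
        exact hDB ⟨hSP x.2, hx⟩
    refine ⟨?_, ?_⟩
    · rw [e1]
      exact hC.preimage continuous_subtype_val
    · rw [← isClosed_compl_iff, e2]
      exact hD.preimage continuous_subtype_val
  have hreg : ∀ j, IsClopen {x : S | μ (θ (f j) ⁻¹' {θ (f j) x}) = 0} := by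
    intro j
    have := hclopen (Nat.pair j 0)
    simpa only [B, Nat.unpair_pair, mem_ofPred_eq] using this
  have hcont : ∀ j, Continuous fun x : S => θ (f j) x := by
    intro j
    apply continuousOn_of_clopen
    intro n
    have := hclopen (Nat.pair j (n + 1))
    simpa only [B, Nat.unpair_pair, mem_ofPred_eq] using this
  -- the relations
  let E : ℕ → Set (S × S) := fun j =>
    {p | μ (θ (f j) ⁻¹' {θ (f j) p.1}) = 0 ∧ θ (f j) p.1 = θ (f j) p.2}
  have hEclosed : ∀ j, IsClosed (E j) := by
    intro j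
    refine IsClosed.inter ?_ ?_
    · exact (hreg j).isClosed.preimage continuous_fst
    · exact isClosed_eq ((hcont j).comp continuous_fst) ((hcont j).comp continuous_snd)
  have hEthin : ∀ j, Thin (E j) := by
    intro j U V hU hV hUn hVn
    obtain ⟨p, hp⟩ := hUn
    by_contra hcon
    push Not at hcon
    have h1 : μ (θ (f j) ⁻¹' {θ (f j) p}) = 0 := by
      obtain ⟨q, hq⟩ := hVn
      exact (hcon p hp q hq).1
    obtain ⟨V', hV', rfl⟩ := isOpen_induced_iff.1 hV
    have h2 : V' ∩ S ⊆ θ (f j) ⁻¹' {θ (f j) p} := by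
      intro q hq
      exact (hcon p hp ⟨q, hq.2⟩ hq.1).2.symm
    refine hSpos V' hV' ?_ (measure_mono_null h2 h1)
    obtain ⟨q, hq⟩ := hVn
    exact ⟨q, hq, q.2⟩
  obtain ⟨x, hx⟩ := fusion E hEclosed hEthin
  refine ⟨fun b => x b, fun b => hPN (hSP (x b).2), ?_⟩
  intro b b' hbb' i hi heq
  obtain ⟨j, rfl⟩ := hf i
  exact hx b b' hbb' j ⟨hi, heq⟩

end main

end Pool.Agent.Lib_helper95.SH
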