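import Mathlib

/-!
# A transfinite recursion of length continuum in an elementary abelian 2-group
-/

namespace Pool.Agent.Lib_helper95.SH

open Set Cardinal

/-- Choosing along a well-order. -/
lemma exists_choice {I G : Type} [LinearOrder I] [WellFoundedLT I]
    (P : ∀ a : I, (∀ j : I, j < a → G) → G → Prop) (h : ∀ a prev, ∃ x, P a prev x) :
    ∃ x : I → G, ∀ a, P a (fun j _ => x j) (x a) := by
  classical
  let F : ∀ a : I, (∀ j : I, j < a → G) → G := fun a prev => (h a prev).choose
  refine ⟨(wellFounded_lt (α := I)).fix F, fun a => ?_⟩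
  rw [WellFounded.fix_eq]
  exact (h a _).choose_spec

/-- Avoiding fewer than continuum many sets with at most one point. -/
lemma exists_avoid {β ι : Type} (hβ : 𝔠 ≤ #β) (hι : #ι < 𝔠) (Bad : ι → Set β)
    (hBad : ∀ i, (Bad i).Subsingleton) : ∃ b, ∀ i, b ∉ Bad i := by
  by_contra hcon
  push Not at hcon
  choose f hf using hcon
  have hinj : Function.Injective f := by
    intro b b' h
    exact hBad (f b) (hf b) (h ▸ hf b')
  exact absurd (hβ.trans (mk_le_of_injective hinj)) (not_le.2 hι)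

lemma mk_finset_lt {J : Type} (hJ : #J < 𝔠) : #(Finset J) < 𝔠 := by
  rcases finite_or_infinite J with h | h
  · exact (Cardinal.lt_aleph0_of_finite _).trans aleph0_lt_continuum
  · rwa [mk_finset_of_infinite]

section rec

variable {G : Type} [AddCommGroup G] [Module (ZMod 2) G]

/-- Elements of the span of a family are finite sums. -/
lemma exists_finset_sum {I : Type} (x : I → G) {y : G}
    (hy : y ∈ Submodule.span (ZMod 2) (range x)) : ∃ s : Finset I, y = ∑ j ∈ s, x j := by
  classical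
  obtain ⟨c, rfl⟩ := (Finsupp.mem_span_range_iff_exists_finsupp).1 hy
  refine ⟨c.support, ?_⟩
  rw [Finsupp.sum]
  apply Finset.sum_congr rfl
  intro j hj
  have h : c j = 1 := by
    have h0 : c j ≠ 0 := Finsupp.mem_support_iff.1 hj
    revert h0
    generalize c j = w
    revert w
    decide
  rw [h, one_smul]

/-- **The recursion.** -/
theorem exists_submodule {I β : Type} (hI : #I ≤ 𝔠) (hβ : 𝔠 ≤ #β) (K : I → β → G)
    (ψ : I → ℕ → G → G) (ok : I → ℕ → G → Prop)
    (h0 : ∀ a, Function.Injective (K a))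
    (h1 : ∀ a n b b', b ≠ b' → ok a n (K a b) → ψ a n (K a b) ≠ ψ a n (K a b'))
    (h2 : ∀ a n b b', b ≠ b' → ok a n (K a b) →
      ψ a n (K a b) - K a b ≠ ψ a n (K a b') - K a b') :
    ∃ X : Submodule (ZMod 2) G, ∀ a, ∃ b, K a b ∈ X ∧ ∀ n, ok a n (K a b) →
      ψ a n (K a b) ∉ X := by
  classical
  obtain ⟨_, _, hord⟩ := exists_ord_eq_type_lt I
  have hseg : ∀ a : I, #{j : I // j < a} < 𝔠 := fun a => (mk_Iio_lt a hord).trans_le hI
  -- the requirement at stage `a`
  let P : ∀ a : I, (∀ j : I, j < a → G) → G → Prop := fun a prev x =>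
    ∃ b, x = K a b ∧
      (∀ (s : Finset {j : I // j < a}) (i : {j : I // j < a}) (n : ℕ),
        K a b ≠ ψ i n (prev i i.2) - ∑ j ∈ s, prev j j.2) ∧
      (∀ (s : Finset {j : I // j < a}) (n : ℕ), ok a n (K a b) →
        ψ a n (K a b) ≠ ∑ j ∈ s, prev j j.2) ∧
      (∀ (s : Finset {j : I // j < a}) (n : ℕ), ok a n (K a b) →
        ψ a n (K a b) - K a b ≠ ∑ j ∈ s, prev j j.2)
  have hP : ∀ a prev, ∃ x, P a prev x := by
    intro a prev
    have hJ := hseg a
    have hF := mk_finset_lt hJ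
    have hcard : #((Finset {j : I // j < a} × {j : I // j < a} × ℕ) ⊕
        (Finset {j : I // j < a} × ℕ) ⊕ (Finset {j : I // j < a} × ℕ)) < 𝔠 := by
      have hN : #ℕ < 𝔠 := by
        rw [mk_nat]
        exact aleph0_lt_continuum
      have hmul : ∀ A B : Type, #A < 𝔠 → #B < 𝔠 → #(A × B) < 𝔠 := by
        intro A B hA hB
        rw [mk_prod, lift_id, lift_id]
        exact mul_lt_of_lt aleph0_le_continuum hA hB
      have hadd : ∀ A B : Type, #A < 𝔠 → #B < 𝔠 → #(A ⊕ B) < 𝔠 := by
        intro A B hA hB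
        rw [mk_sum, lift_id, lift_id]
        exact add_lt_of_lt aleph0_le_continuum hA hB
      exact hadd _ _ (hmul _ _ hF (hmul _ _ hJ hN)) (hadd _ _ (hmul _ _ hF hN) (hmul _ _ hF hN))
    obtain ⟨b, hb⟩ := exists_avoid hβ hcard
      (fun i => match i with
        | Sum.inl (s, i, n) => {b | K a b = ψ i n (prev i i.2) - ∑ j ∈ s, prev j j.2}
        | Sum.inr (Sum.inl (s, n)) => {b | ok a n (K a b) ∧ ψ a n (K a b) = ∑ j ∈ s, prev j j.2}
        | Sum.inr (Sum.inr (s, n)) =>
          {b | ok a n (K a b) ∧ ψ a n (K a b) - K a b = ∑ j ∈ s, prev j j.2})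
      (by
        rintro (⟨s, i, n⟩ | ⟨s, n⟩ | ⟨s, n⟩)
        · intro b hb b' hb'
          exact h0 a (hb.trans hb'.symm)
        · intro b hb b' hb'
          by_contra hne
          exact h1 a n b b' hne hb.1 (hb.2.trans hb'.2.symm)
        · intro b hb b' hb'
          by_contra hne
          exact h2 a n b b' hne hb.1 (hb.2.trans hb'.2.symm))
    refine ⟨K a b, b, rfl, ?_, ?_, ?_⟩
    · intro s i n h
      exact hb (Sum.inl (s, i, n)) h
    · intro s n hok h
      exact hb (Sum.inr (Sum.inl (s, n))) ⟨hok, h⟩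
    · intro s n hok h
      exact hb (Sum.inr (Sum.inr (s, n))) ⟨hok, h⟩
  obtain ⟨x, hx⟩ := exists_choice P hP
  refine ⟨Submodule.span (ZMod 2) (range x), fun a => ?_⟩
  obtain ⟨b, hxb, _, hb2, hb3⟩ := hx a
  refine ⟨b, hxb ▸ Submodule.subset_span (mem_range_self a), ?_⟩
  intro n hok hmem
  obtain ⟨s, hs⟩ := exists_finset_sum x hmem
  -- sums over finite sets below `c`
  have key : ∀ (c : I) (t : Finset I), (∀ j ∈ t, j < c) →
      ∃ t' : Finset {j : I // j < c}, ∑ j ∈ t, x j = ∑ j ∈ t', x j := by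
    intro c t ht
    refine ⟨t.subtype (fun j => j < c), ?_⟩
    rw [Finset.sum_subtype_eq_sum_filter, Finset.filter_true_of_mem ht]
  rcases s.eq_empty_or_nonempty with rfl | hne
  · exact hb2 ∅ n hok (by simpa using hs)
  · set m := s.max' hne with hm
    have hms : m ∈ s := s.max'_mem hne
    have hlt : ∀ j ∈ s.erase m, j < m := fun j hj => s.lt_max'_of_mem_erase_max' hne hj
    have hsum : ∑ j ∈ s, x j = x m + ∑ j ∈ s.erase m, x j := (Finset.add_sum_erase s x hms).symm
    rcases lt_trichotomy m a with hma | hma | hma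
    · obtain ⟨t', ht'⟩ := key a s (fun j hj => (s.le_max' j hj).trans_lt hma)
      exact hb2 t' n hok (hs.trans ht')
    · subst hma
      obtain ⟨t', ht'⟩ := key m (s.erase m) hlt
      refine hb3 t' n hok ?_
      rw [hs, hsum, ht', hxb]
      abel
    · obtain ⟨t', ht'⟩ := key m (s.erase m) hlt
      obtain ⟨bm, hxbm, hb1, _, _⟩ := hx m
      refine hb1 t' ⟨a, hma⟩ n ?_
      simp only
      rw [hxb, hs, hsum, ht', hxbm]
      abel

end rec

end Pool.Agent.Lib_helper95.SH
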