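import Pool.Agent.Lib_helper95.SHDefs
import Pool.Agent.Lib_helper95.SHMeasure
import Pool.Agent.Lib_helper95.SHRec

/-!
# A homogeneous zero-dimensional space which is not a countable union of strongly homogeneous
subspaces
-/

namespace Pool.Agent.Lib_helper95.SH

open Set MeasureTheory Filter Topology Cardinal

section preserve

variable (μ : Measure GG) [IsFiniteMeasure μ] [μ.IsAddLeftInvariant]

/-- Off the fibres of measure zero of `ψ - id`, an invertible map into `D` is a piecewise
translation, so that it cannot shrink outer measure. -/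
lemma measure_translation_part_le {Y D : Set GG} {ψ κ : GG → GG} (hψ : Measurable ψ)
    (hκ : Measurable κ) (hD : MeasurableSet D) (h1 : ∀ y ∈ Y, ψ y ∈ D)
    (h2 : ∀ y ∈ Y, κ (ψ y) = y) :
    μ {y ∈ Y | μ ((fun x => ψ x - x) ⁻¹' {ψ y - y}) ≠ 0} ≤ μ D := by
  set θ : GG → GG := fun x => ψ x - x with hθdef
  have hθ : Measurable θ := hψ.sub measurable_id
  set Γ : Set GG := {g | μ (θ ⁻¹' {g}) ≠ 0} with hΓ
  have hΓc : Γ.Countable := countable_atoms μ hθ
  have hcover : {y ∈ Y | μ (θ ⁻¹' {ψ y - y}) ≠ 0} ⊆ ⋃ g ∈ Γ, {y ∈ Y | θ y = g} := by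
    intro y hy
    exact mem_biUnion (x := θ y) hy.2 ⟨hy.1, rfl⟩
  have hC : Measurable fun v : GG => v - κ v := measurable_id.sub hκ
  have htrans : ∀ g, μ {y ∈ Y | θ y = g} ≤ μ ((fun v : GG => v - κ v) ⁻¹' {g} ∩ D) := by
    intro g
    have e1 : μ {y ∈ Y | θ y = g} = μ ((fun v => -g + v) ⁻¹' {y ∈ Y | θ y = g}) :=
      (measure_preimage_add μ (-g) _).symm
    rw [e1]
    apply measure_mono
    intro v hv
    obtain ⟨hvY, hvg⟩ := hv
    have e2 : ψ (-g + v) = v := by
      have : ψ (-g + v) - (-g + v) = g := hvg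
      have h3 := eq_add_of_sub_eq this
      rw [h3]
      abel
    refine ⟨?_, ?_⟩
    · have := h2 _ hvY
      rw [e2] at this
      simp only [mem_preimage, mem_singleton_iff, this]
      abel
    · have := h1 _ hvY
      rwa [e2] at this
  calc μ {y ∈ Y | μ (θ ⁻¹' {ψ y - y}) ≠ 0}
      ≤ μ (⋃ g ∈ Γ, {y ∈ Y | θ y = g}) := measure_mono hcover
    _ ≤ ∑' g : Γ, μ {y ∈ Y | θ y = g} := measure_biUnion_le μ hΓc _
    _ ≤ ∑' g : Γ, μ ((fun v : GG => v - κ v) ⁻¹' {(g : GG)} ∩ D) :=
        ENNReal.tsum_le_tsum fun g => htrans g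
    _ = μ (⋃ g ∈ Γ, (fun v : GG => v - κ v) ⁻¹' {g} ∩ D) := by
        rw [measure_biUnion hΓc]
        · intro a _ b _ hab
          exact Set.disjoint_left.2 fun x hx hx' => hab (hx.1.symm.trans hx'.1)
        · intro g _
          exact (hC (measurableSet_singleton g)).inter hD
    _ ≤ μ D := measure_mono (by
        intro x hx
        simp only [mem_iUnion] at hx
        obtain ⟨g, _, hx⟩ := hx
        exact hx.2)

omit [μ.IsAddLeftInvariant] in
lemma measure_atom_part [NullSingletonClass μ] {Y : Set GG} {ψ κ : GG → GG} (hψ : Measurable ψ)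
    (h2 : ∀ y ∈ Y, κ (ψ y) = y) :
    μ {y ∈ Y | μ (ψ ⁻¹' {ψ y}) ≠ 0} = 0 := by
  apply Set.Countable.measure_zero
  have hΓc : {g | μ (ψ ⁻¹' {g}) ≠ 0}.Countable := countable_atoms μ hψ
  refine (hΓc.image κ).mono ?_
  intro y hy
  exact ⟨ψ y, hy.2, h2 y hy.1⟩

end preserve

section extension

/-- Every continuous map from a subspace of the Cantor group extends to a Borel map. -/
lemma exists_measurable_extension {Z : Type} [TopologicalSpace Z] {ι : Z → GG}
    (hι : IsEmbedding ι) {f : Z → GG} (hf : Continuous f) :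
    ∃ F : GG → GG, Measurable F ∧ ∀ z, F (ι z) = f z := by
  classical
  have h : ∀ n : ℕ, ∃ O : Set GG, IsOpen O ∧ ι ⁻¹' O = {z | f z n = 1} := by
    intro n
    have : IsOpen {z | f z n = 1} :=
      (isOpen_discrete {(1 : ZMod 2)}).preimage ((continuous_apply n).comp hf)
    rw [hι.isInducing.isOpen_iff] at this
    exact this
  choose O hO hO' using h
  refine ⟨fun x n => if x ∈ O n then 1 else 0, ?_, ?_⟩
  · refine measurable_pi_iff.2 fun n => ?_
    exact Measurable.ite (hO n).measurableSet measurable_const measurable_const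
  · intro z
    funext n
    have h1 : ι z ∈ O n ↔ f z n = 1 := by
      change z ∈ ι ⁻¹' O n ↔ _
      rw [hO' n]
      rfl
    simp only [h1]
    generalize f z n = w
    revert w
    decide

end extension

section codes

/-- The Borel codes: countably many Borel self-maps of the Cantor group and a Borel set. -/
def Code : Type := {c : (ℕ → GG → GG) × Set GG // (∀ j, Measurable (c.1 j)) ∧ MeasurableSet c.2}

lemma mk_code_le : #Code ≤ 𝔠 := by
  classical
  have hM : #{s : Set GG // MeasurableSet s} ≤ 𝔠 := by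
    obtain ⟨b, hbc, hb⟩ := (inferInstance : MeasurableSpace.CountablyGenerated GG).isCountablyGenerated
    have h1 : #b ≤ 𝔠 := (mk_le_aleph0_iff.2 hbc.to_subtype).trans aleph0_le_continuum
    have h2 := MeasurableSpace.cardinal_measurableSet_le_continuum h1
    rw [← hb] at h2
    exact h2
  let f : Code → (ℕ → ℕ → {s : Set GG // MeasurableSet s}) × {s : Set GG // MeasurableSet s} :=
    fun c => (fun j n => ⟨{x | c.1.1 j x n = 1},
      (measurable_pi_iff.1 (c.2.1 j) n) (measurableSet_singleton 1)⟩, ⟨c.1.2, c.2.2⟩)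
  have hf : Function.Injective f := by
    intro c d h
    apply Subtype.ext
    refine Prod.ext ?_ ?_
    · funext j x n
      have h1 := congrFun (congrFun (congrArg Prod.fst h) j) n
      have h2 : (x ∈ {x | c.1.1 j x n = 1}) ↔ (x ∈ {x | d.1.1 j x n = 1}) := by
        have := congrArg Subtype.val h1
        simp only [f] at this
        rw [this]
      simp only [mem_ofPred_eq] at h2
      revert h2
      generalize c.1.1 j x n = w
      generalize d.1.1 j x n = w'
      revert w w'
      decide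
    · exact congrArg Subtype.val (congrArg Prod.snd h)
  refine (mk_le_of_injective hf).trans ?_
  have hpow : ∀ A : Type, #A ≤ 𝔠 → #(ℕ → A) ≤ 𝔠 := by
    intro A hA
    rw [← power_def, mk_nat]
    exact (power_le_power_right hA).trans continuum_power_aleph0.le
  rw [mk_prod, lift_id, lift_id]
  exact (mul_le_mul' (hpow _ (hpow _ hM)) hM).trans continuum_mul_self.le

end codes

section final

/-- The cylinder of the first `m` coordinates around `y`. -/
def cyl (y : GG) (m : ℕ) : Set GG := {x | ∀ i < m, x i = y i}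

lemma isClopen_cyl (y : GG) (m : ℕ) : IsClopen (cyl y m) := by
  have h : cyl y m = ⋂ i ∈ Finset.range m, (fun x : GG => x i) ⁻¹' {y i} := by
    ext x
    simp [cyl]
  rw [h]
  exact isClopen_biInter_finset fun i _ =>
    (isClopen_discrete {y i}).preimage (continuous_apply i)

lemma tendsto_cyl (μ : Measure GG) [IsFiniteMeasure μ] [NullSingletonClass μ] (y : GG) :
    Tendsto (fun m => μ (cyl y m)) atTop (𝓝 0) := by
  have h1 : ⋂ m, cyl y m = {y} := by
    ext x
    simp only [mem_iInter, mem_singleton_iff]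
    constructor
    · intro h
      funext i
      exact h (i + 1) i (Nat.lt_succ_self i)
    · rintro rfl m i _
      rfl
  have h2 : μ (⋂ m, cyl y m) = 0 := by
    rw [h1]
    exact measure_singleton y
  rw [← h2]
  apply tendsto_measure_iInter_atTop
  · exact fun m => (isClopen_cyl y m).isOpen.measurableSet.nullMeasurableSet
  · intro m n hmn x hx i hi
    exact hx i (lt_of_lt_of_le hi hmn)
  · exact ⟨0, measure_ne_top _ _⟩

/-- For a strongly homogeneous subspace of the Cantor group, countably many Borel maps which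
witness its strong homogeneity. -/
lemma exists_maps {Z : Type} [TopologicalSpace Z] {ι : Z → GG} (hι : IsEmbedding ι)
    (hZ : StronglyHomogeneous Z) :
    ∃ (y : GG) (ψ κ : ℕ → GG → GG), (∀ m, Measurable (ψ m)) ∧ (∀ m, Measurable (κ m)) ∧
      ∀ m z, (ψ m (ι z) ∈ range ι ∧ ψ m (ι z) ∈ cyl y m) ∧ κ m (ψ m (ι z)) = ι z := by
  obtain ⟨⟨z0⟩, hU⟩ := hZ
  have h : ∀ m : ℕ, ∃ (ψ κ : GG → GG), Measurable ψ ∧ Measurable κ ∧
      ∀ z, (ψ (ι z) ∈ range ι ∧ ψ (ι z) ∈ cyl (ι z0) m) ∧ κ (ψ (ι z)) = ι z := by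
    intro m
    set U : Set Z := ι ⁻¹' cyl (ι z0) m with hUdef
    have hUclopen : IsClopen U := (isClopen_cyl _ m).preimage hι.continuous
    obtain ⟨e⟩ := hU U hUclopen ⟨z0, fun _ _ => rfl⟩
    obtain ⟨ψ, hψ, hψ'⟩ := exists_measurable_extension hι
      (f := fun z => ι (e.symm z : Z)) (hι.continuous.comp (continuous_subtype_val.comp e.symm.continuous))
    obtain ⟨κ, hκ, hκ'⟩ := exists_measurable_extension (ι := fun u : U => ι (u : Z))
      (hι.comp IsEmbedding.subtypeVal) (f := fun u => ι (e u)) (hι.continuous.comp e.continuous)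
    refine ⟨ψ, κ, hψ, hκ, fun z => ⟨⟨?_, ?_⟩, ?_⟩⟩
    · rw [hψ']
      exact mem_range_self _
    · rw [hψ']
      exact (e.symm z).2
    · rw [hψ', hκ', e.apply_symm_apply]
  choose ψ κ h1 h2 h3 using h
  exact ⟨ι z0, ψ, κ, h1, h2, h3⟩

/-- The main theorem, for a subspace (in fact a subgroup) of the Cantor group. -/
theorem main : ∃ X : Submodule (ZMod 2) GG, ¬ SigmaStronglyHomogeneous X := by
  classical
  -- Haar measure
  have hnebot : (𝓝[≠] (0 : GG)).NeBot := by
    rw [← mem_closure_iff_nhdsWithin_neBot, mem_closure_iff_seq_limit]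
    refine ⟨fun n => Pi.single n 1, fun n => ?_, ?_⟩
    · intro h
      have h1 := congrFun h n
      simp at h1
    · rw [tendsto_pi_nhds]
      intro i
      refine tendsto_const_nhds.congr' ?_
      filter_upwards [eventually_gt_atTop i] with n hn
      rw [Pi.zero_apply, Pi.single_eq_of_ne hn.ne]
  set μ : Measure GG := Measure.addHaar with hμdef
  have hμ0 : μ ≠ 0 := by
    intro h
    have h1 := (isOpen_univ (X := GG)).measure_pos μ univ_nonempty
    rw [h] at h1
    simp at h1
  -- the candidates attached to a code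
  have hcand : ∀ c : Code, ∃ K : (ℕ → Bool) → GG, (μ c.1.2 = 0 → ∀ b, K b ∉ c.1.2) ∧
      Function.Injective K ∧ (∀ n b b', b ≠ b' → μ (c.1.1 n ⁻¹' {c.1.1 n (K b)}) = 0 →
        c.1.1 n (K b) ≠ c.1.1 n (K b')) ∧
      (∀ n b b', b ≠ b' → μ ((fun x => c.1.1 n x - x) ⁻¹' {c.1.1 n (K b) - K b}) = 0 →
        c.1.1 n (K b) - K b ≠ c.1.1 n (K b') - K b') := by
    intro c
    let θ : Option (ℕ ⊕ ℕ) → GG → GG := fun i => match i with
      | none => id
      | some (Sum.inl n) => c.1.1 n
      | some (Sum.inr n) => fun x => c.1.1 n x - x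
    have hθ : ∀ i, Measurable (θ i) := by
      rintro (_ | n | n)
      · exact measurable_id
      · exact c.2.1 n
      · exact (c.2.1 n).sub measurable_id
    obtain ⟨K, hKN, hK⟩ := exists_injective_family μ hμ0 θ hθ
      (N := if μ c.1.2 = 0 then c.1.2 else ∅)
      (by split_ifs <;> [exact c.2.2; exact MeasurableSet.empty])
      (by split_ifs with h <;> [exact h; exact measure_empty])
    refine ⟨K, ?_, ?_, ?_, ?_⟩
    · intro h b
      have := hKN b
      rwa [if_pos h] at this
    · intro b b' h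
      by_contra hne
      refine hK b b' hne none ?_ h
      have : θ none ⁻¹' {θ none (K b)} = {K b} := rfl
      rw [this]
      exact measure_singleton _
    · intro n b b' hne h
      exact hK b b' hne (some (Sum.inl n)) h
    · intro n b b' hne h
      exact hK b b' hne (some (Sum.inr n)) h
  choose K hKN hKinj hK1 hK2 using hcand
  obtain ⟨X, hX⟩ := exists_submodule (G := GG) mk_code_le (β := ℕ → Bool) (by
      rw [← power_def, mk_nat, mk_bool, two_power_aleph0]) K (fun c => c.1.1)
    (fun c n x => μ (c.1.1 n ⁻¹' {c.1.1 n x}) = 0 ∧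
      μ ((fun z => c.1.1 n z - z) ⁻¹' {c.1.1 n x - x}) = 0)
    hKinj (fun c n b b' hbb' hok => hK1 c n b b' hbb' hok.1)
    (fun c n b b' hbb' hok => hK2 c n b b' hbb' hok.2)
  refine ⟨X, ?_⟩
  rintro ⟨S, hS, hSH⟩
  -- the embeddings
  have hemb : ∀ n, IsEmbedding (fun z : S n => ((z : X) : GG)) := fun n =>
    IsEmbedding.subtypeVal.comp IsEmbedding.subtypeVal
  have hmaps := fun n => exists_maps (hemb n) (hSH n)
  choose y ψ κ hψ hκ hmaps using hmaps
  -- the exceptional null sets
  let Y : ℕ → Set GG := fun n => range (fun z : S n => ((z : X) : GG))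
  let Z : ℕ → Set GG := fun n => {x ∈ Y n | ∀ m, μ (ψ n m ⁻¹' {ψ n m x}) ≠ 0 ∨
    μ ((fun z => ψ n m z - z) ⁻¹' {ψ n m x - x}) ≠ 0}
  have hZ : ∀ n, μ (Z n) = 0 := by
    intro n
    have hle : ∀ m, μ (Z n) ≤ μ (cyl (y n) m) := by
      intro m
      have h1 : μ {x ∈ Y n | μ (ψ n m ⁻¹' {ψ n m x}) ≠ 0} = 0 :=
        measure_atom_part μ (hψ n m) (κ := κ n m) (by
          rintro _ ⟨z, rfl⟩
          exact (hmaps n m z).2)
      have h2 : μ {x ∈ Y n | μ ((fun z => ψ n m z - z) ⁻¹' {ψ n m x - x}) ≠ 0} ≤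
          μ (cyl (y n) m) :=
        measure_translation_part_le μ (hψ n m) (hκ n m) (isClopen_cyl _ _).isOpen.measurableSet
          (by
            rintro _ ⟨z, rfl⟩
            exact (hmaps n m z).1.2)
          (by
            rintro _ ⟨z, rfl⟩
            exact (hmaps n m z).2)
      have h3 : Z n ⊆ {x ∈ Y n | μ (ψ n m ⁻¹' {ψ n m x}) ≠ 0} ∪
          {x ∈ Y n | μ ((fun z => ψ n m z - z) ⁻¹' {ψ n m x - x}) ≠ 0} := by
        intro x hx
        rcases hx.2 m with h | h
        · exact Or.inl ⟨hx.1, h⟩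
        · exact Or.inr ⟨hx.1, h⟩
      calc μ (Z n) ≤ _ := measure_mono h3
        _ ≤ _ := measure_union_le _ _
        _ ≤ 0 + μ (cyl (y n) m) := add_le_add h1.le h2
        _ = μ (cyl (y n) m) := zero_add _
    exact le_antisymm (ge_of_tendsto' (tendsto_cyl μ (y n)) hle) bot_le
  set N : Set GG := toMeasurable μ (⋃ n, Z n) with hN
  have hN0 : μ N = 0 := by
    rw [hN, measure_toMeasurable]
    exact measure_iUnion_null hZ
  -- the code
  let c : Code := ⟨(fun j => ψ (Nat.unpair j).1 (Nat.unpair j).2, N),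
    fun j => hψ _ _, measurableSet_toMeasurable _ _⟩
  obtain ⟨b, hbX, hb⟩ := hX c
  have hbN : K c b ∉ N := hKN c hN0 b
  have hmem : (⟨K c b, hbX⟩ : X) ∈ ⋃ n, S n := by
    rw [hS]
    trivial
  obtain ⟨n, hn⟩ := mem_iUnion.1 hmem
  have hYn : K c b ∈ Y n := ⟨⟨⟨K c b, hbX⟩, hn⟩, rfl⟩
  have hZn : K c b ∉ Z n := fun h => hbN (subset_toMeasurable _ _ (mem_iUnion.2 ⟨n, h⟩))
  have hm : ∃ m, μ (ψ n m ⁻¹' {ψ n m (K c b)}) = 0 ∧
      μ ((fun z => ψ n m z - z) ⁻¹' {ψ n m (K c b) - K c b}) = 0 := by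
    by_contra hcon
    push Not at hcon
    apply hZn
    refine ⟨hYn, fun m => ?_⟩
    by_cases h : μ (ψ n m ⁻¹' {ψ n m (K c b)}) = 0
    · exact Or.inr (hcon m h)
    · exact Or.inl h
  obtain ⟨m, hm⟩ := hm
  have h1 := hb (Nat.pair n m) (by simpa [c] using hm)
  simp only [c, Nat.unpair_pair] at h1
  apply h1
  obtain ⟨w, hw⟩ := (hmaps n m ⟨⟨K c b, hbX⟩, hn⟩).1.1
  have hw' : ((w : X) : GG) = ψ n m (K c b) := hw
  change ψ n m (K c b) ∈ X
  rw [← hw']
  exact (w : X).2

theorem zeroDimensional_submodule (X : Submodule (ZMod 2) GG) : ZeroDimensional X := by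
  unfold ZeroDimensional
  refine TopologicalSpace.isTopologicalBasis_of_isOpen_of_nhds (fun U hU => hU.isOpen) ?_
  intro x U hx hU
  obtain ⟨V, hV, rfl⟩ := isOpen_induced_iff.1 hU
  obtain ⟨W, hW, hxW, hWV⟩ := compact_exists_isClopen_in_isOpen hV hx
  exact ⟨_, hW.preimage continuous_subtype_val, hxW, preimage_mono hWV⟩

theorem homogeneous_submodule (X : Submodule (ZMod 2) GG) : Homogeneous X := by
  intro x y
  exact ⟨Homeomorph.addLeft (y - x), by simp⟩

theorem sigmaHomogeneous_of_homogeneous {X : Type} [TopologicalSpace X] (h : Homogeneous X) :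
    SigmaHomogeneous X := by
  refine ⟨fun _ => univ, iUnion_const univ, fun _ => ?_⟩
  intro x y
  obtain ⟨e, he⟩ := h x y
  refine ⟨((Homeomorph.Set.univ X).trans e).trans (Homeomorph.Set.univ X).symm, ?_⟩
  apply Subtype.ext
  exact he

theorem separableSpace_submodule (X : Submodule (ZMod 2) GG) :
    TopologicalSpace.SeparableSpace X := by
  have : SecondCountableTopology X := TopologicalSpace.Subtype.secondCountableTopology _
  exact TopologicalSpace.SecondCountableTopology.to_separableSpace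

theorem metrizableSpace_submodule (X : Submodule (ZMod 2) GG) :
    TopologicalSpace.MetrizableSpace X :=
  IsEmbedding.subtypeVal.metrizableSpace

end final

end Pool.Agent.Lib_helper95.SH
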